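import Pool.Agent.H21.T3.Gen
import Pool.Agent.H21.SD.Unif

/-!
The bounds for the square and the triangular lattice.
-/

set_option autoImplicit false

namespace Pool.Agent.H21.T3

open scoped ENNReal
open Classical
open Pool.Agent.H21.SD (c outs cp Bx mem_Bx cnt cnt_eq bc bc_eq DD card_DD numbers)

noncomputable def xm (μ : ℝ) : ℝ≥0∞ := ENNReal.ofReal (1 / μ)

theorem xm_pow {μ : ℝ} (hμ : 0 < μ) (k : ℕ) : xm μ ^ k = ENNReal.ofReal ((1 / μ) ^ k) := by
  unfold xm
  rw [ENNReal.ofReal_pow (by positivity)]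

theorem S_bd {S : Finset V} {μ K : ℝ} (H : Fc S μ K) (P : Finset (List V)) (N : Finset V) (d : ℕ)
    (hP : ∀ r ∈ P, r.IsChain (Ad S) ∧ r.Nodup ∧ r.length ≤ d ∧ ∃ u ∈ N, r.head? = some u) :
    ∑ r ∈ P, xm μ ^ r.length ≤
      ENNReal.ofReal (N.card * d * Real.exp (K * Real.log (d + 2) ^ 2) / μ) := by
  have hmu : 0 < μ := lt_of_lt_of_le one_pos H.one
  have hK0 := H.K0
  have hmaps : ∀ r ∈ P, (r.headD (0, 0), r.length - 1) ∈ N ×ˢ Finset.range d := by
    intro r hr
    obtain ⟨h1, h2, h3, u, hu, h4⟩ := hP r hr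
    match r, h4, h3 with
    | x :: xs, h4, h3 =>
      simp only [List.head?_cons, Option.some.injEq] at h4
      subst h4
      rw [Finset.mem_product, Finset.mem_range]
      simp only [List.headD_cons, List.length_cons] at h3 ⊢
      exact ⟨hu, by omega⟩
  rw [← Finset.sum_fiberwise_of_maps_to hmaps]
  have hin : ∀ q ∈ N ×ˢ Finset.range d,
      ∑ r ∈ P with (r.headD (0, 0), r.length - 1) = q, xm μ ^ r.length ≤
        ENNReal.ofReal (Real.exp (K * Real.log (d + 2) ^ 2) / μ) := by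
    rintro ⟨u, m⟩ hq
    rw [Finset.mem_product, Finset.mem_range] at hq
    simp only at hq
    have hF : ∀ r ∈ P.filter (fun r => (r.headD (0, 0), r.length - 1) = (u, m)),
        r.length = m + 1 ∧ r.head? = some u ∧ r.IsChain (Ad S) ∧ r.Nodup := by
      intro r hr
      rw [Finset.mem_filter] at hr
      obtain ⟨h1, h2, h3, u', hu', h4⟩ := hP r hr.1
      match r, h4, hr, h1, h2 with
      | x :: xs, h4, hr, h1, h2 =>
        simp only [List.headD_cons, List.length_cons, Prod.mk.injEq, Nat.add_sub_cancel] at hr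
        refine ⟨?_, ?_, ?_, h2⟩
        · rw [List.length_cons, hr.2.2]
        · rw [List.head?_cons, hr.2.1]
        · exact h1
    have hcard : (((P.filter (fun r => (r.headD (0, 0), r.length - 1) = (u, m))).card : ℕ) : ℝ) ≤
        μ ^ m * Real.exp (K * Real.log (m + 2) ^ 2) := by
      refine le_trans ?_ (H.up m)
      exact_mod_cast lst H.ok u m _ hF
    have hsum : ∑ r ∈ P with (r.headD (0, 0), r.length - 1) = (u, m), xm μ ^ r.length =
        ((P.filter (fun r => (r.headD (0, 0), r.length - 1) = (u, m))).card : ℝ≥0∞) *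
          xm μ ^ (m + 1) := by
      rw [← nsmul_eq_mul, ← Finset.sum_const]
      refine Finset.sum_congr rfl fun r hr => ?_
      rw [(hF r hr).1]
    rw [hsum, xm_pow hmu, ← ENNReal.ofReal_natCast, ← ENNReal.ofReal_mul (by positivity)]
    apply ENNReal.ofReal_le_ofReal
    have h5 : Real.exp (K * Real.log (m + 2) ^ 2) ≤ Real.exp (K * Real.log (d + 2) ^ 2) := by
      apply Real.exp_le_exp.2
      apply mul_le_mul_of_nonneg_left _ hK0
      have h6 : (0 : ℝ) ≤ Real.log (m + 2) := Real.log_nonneg (by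
        have : (0 : ℝ) ≤ m := Nat.cast_nonneg m
        linarith)
      apply pow_le_pow_left₀ h6
      apply Real.log_le_log (by positivity)
      have : (m : ℝ) ≤ d := by exact_mod_cast hq.2.le
      linarith
    calc ((P.filter (fun r => (r.headD (0, 0), r.length - 1) = (u, m))).card : ℝ) *
          (1 / μ) ^ (m + 1)
        ≤ (μ ^ m * Real.exp (K * Real.log (m + 2) ^ 2)) * (1 / μ) ^ (m + 1) :=
          mul_le_mul_of_nonneg_right hcard (by positivity)
      _ = Real.exp (K * Real.log (m + 2) ^ 2) / μ := by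
          have h7 : (1 / μ) ^ (m + 1) = 1 / (μ ^ m * μ) := by
            rw [one_div, inv_pow, pow_succ, one_div]
          rw [h7]
          field_simp
      _ ≤ _ := div_le_div_of_nonneg_right h5 hmu.le
  refine (Finset.sum_le_sum hin).trans ?_
  rw [Finset.sum_const, nsmul_eq_mul, Finset.card_product, Finset.card_range,
    ← ENNReal.ofReal_natCast, ← ENNReal.ofReal_mul (by positivity)]
  apply ENNReal.ofReal_le_ofReal
  push_cast
  apply le_of_eq
  ring

theorem num3 (K μ : ℝ) (κ : ℕ) (hK : 0 ≤ K) (hμ : 1 ≤ μ) (hκ : 1 ≤ κ)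
    (hent : Real.log κ + 1 / 10 + 1 / 50 ≤ 49 / 50 * Real.log μ) (n d m : ℕ) (hn : n ≤ 2 * d)
    (hm : 49 * n ^ 2 ≤ 50 * m) :
    μ * ((1 / μ) ^ m * (Real.exp ((n : ℝ) ^ 2 / 10) * 2 ^ (12 * n + 12) * (κ : ℝ) ^ (n ^ 2) *
      ((4 * n + 6) * (1 + (4 * n + 5) * d * Real.exp (K * Real.log (d + 2) ^ 2) / μ) ^ (4 * n + 5)))) ≤
      Real.exp ((5 * K + 3 * Real.log μ + 100) * ((n + 1) * Real.log (d + 2) ^ 2) - n ^ 2 / 50) := by
  set L := Real.log (d + 2) ^ 2 with hL
  have hd0 : (0 : ℝ) ≤ d := Nat.cast_nonneg d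
  have hn0 : (0 : ℝ) ≤ n := Nat.cast_nonneg n
  have hnd : (n : ℝ) ≤ 2 * d := by exact_mod_cast hn
  have hL1 := SD.log_sq' d hd0
  rw [← hL] at hL1
  have hmu : 0 < μ := by linarith
  have hlm0 : 0 ≤ Real.log μ := Real.log_nonneg hμ
  have hκr : (1 : ℝ) ≤ κ := by exact_mod_cast hκ
  have hl2 : Real.log 2 ≤ 0.7 := by
    have := Real.log_two_lt_d9; linarith
  have f1 : μ = Real.exp (Real.log μ) := (Real.exp_log hmu).symm
  have f2 : (1 / μ) ^ m = Real.exp (-(m * Real.log μ)) := by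
    rw [Real.exp_neg, mul_comm, Real.exp_mul, Real.exp_log hmu, Real.rpow_natCast, one_div, inv_pow]
  have f3 : (2 : ℝ) ^ (12 * n + 12) = Real.exp (Real.log 2 * (12 * n + 12)) := by
    rw [Real.exp_mul, Real.exp_log (by norm_num), ← Real.rpow_natCast]
    push_cast
    rfl
  have f3' : (κ : ℝ) ^ (n ^ 2) = Real.exp (Real.log κ * n ^ 2) := by
    rw [Real.exp_mul, Real.exp_log (by linarith), ← Real.rpow_natCast]
    push_cast
    rfl
  have f4 : (4 * n + 6 : ℝ) ≤ Real.exp (6 * L) := by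
    have h1 := SD.pow_exp d hd0 4
    have h2 : (4 * n + 6 : ℝ) ≤ (d + 2) ^ 4 := by
      have h3 : (8 : ℝ) ≤ (d + 2) ^ 3 := by
        calc (8 : ℝ) = 2 ^ 3 := by norm_num
          _ ≤ (d + 2) ^ 3 := pow_le_pow_left₀ (by norm_num) (by linarith) 3
      calc (4 * n + 6 : ℝ) ≤ 8 * (d + 2) := by linarith
        _ ≤ (d + 2) ^ 3 * (d + 2) := mul_le_mul_of_nonneg_right h3 (by linarith)
        _ = (d + 2) ^ 4 := by ring
    refine h2.trans (h1.trans (Real.exp_le_exp.2 ?_))
    push_cast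
    rw [← hL]
    linarith
  have f5 : 1 + (4 * n + 5) * d * Real.exp (K * L) / μ ≤ Real.exp ((K + 9) * L) := by
    have h0 : 1 ≤ Real.exp (K * L) := Real.one_le_exp (by nlinarith)
    have h1 : (4 * n + 5) * d * Real.exp (K * L) / μ ≤ (4 * n + 5) * d * Real.exp (K * L) :=
      div_le_self (by positivity) hμ
    have h2 : (1 : ℝ) + (4 * n + 5) * d ≤ (d + 2) ^ 6 := by
      have h3 : (8 : ℝ) ≤ (d + 2) ^ 4 := by
        calc (8 : ℝ) ≤ 2 ^ 4 := by norm_num
          _ ≤ (d + 2) ^ 4 := pow_le_pow_left₀ (by norm_num) (by linarith) 4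
      calc (1 : ℝ) + (4 * n + 5) * d ≤ 1 + (8 * d + 5) * d := by nlinarith
        _ ≤ 8 * (d + 2) ^ 2 := by nlinarith
        _ ≤ (d + 2) ^ 4 * (d + 2) ^ 2 := mul_le_mul_of_nonneg_right h3 (by positivity)
        _ = (d + 2) ^ 6 := by ring
    have h4 := SD.pow_exp d hd0 6
    push_cast at h4
    rw [← hL] at h4
    calc 1 + (4 * n + 5) * d * Real.exp (K * L) / μ
        ≤ 1 * Real.exp (K * L) + (4 * n + 5) * d * Real.exp (K * L) := by linarith
      _ = (1 + (4 * n + 5) * d) * Real.exp (K * L) := by ring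
      _ ≤ Real.exp (1.5 * 6 * L) * Real.exp (K * L) :=
          mul_le_mul_of_nonneg_right (h2.trans h4) (Real.exp_pos _).le
      _ = Real.exp ((K + 9) * L) := by
          rw [← Real.exp_add]; congr 1; ring
  have f6 : (1 + (4 * n + 5) * d * Real.exp (K * L) / μ) ^ (4 * n + 5) ≤
      Real.exp ((4 * n + 5) * ((K + 9) * L)) := by
    refine (pow_le_pow_left₀ (by positivity) f5 _).trans (le_of_eq ?_)
    rw [← Real.exp_nat_mul]
    congr 1
    push_cast
    ring
  have hfin : μ * ((1 / μ) ^ m * (Real.exp ((n : ℝ) ^ 2 / 10) * 2 ^ (12 * n + 12) *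
      (κ : ℝ) ^ (n ^ 2) *
      ((4 * n + 6) * (1 + (4 * n + 5) * d * Real.exp (K * L) / μ) ^ (4 * n + 5)))) ≤
      Real.exp (Real.log μ) * (Real.exp (-(m * Real.log μ)) *
        (Real.exp ((n : ℝ) ^ 2 / 10) * Real.exp (Real.log 2 * (12 * n + 12)) *
          Real.exp (Real.log κ * n ^ 2) * (Real.exp (6 * L) *
          Real.exp ((4 * n + 5) * ((K + 9) * L))))) := by
    rw [f2, f3, f3', ← f1]
    gcongr
  refine hfin.trans ?_
  rw [← Real.exp_add, ← Real.exp_add, ← Real.exp_add, ← Real.exp_add, ← Real.exp_add,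
    ← Real.exp_add]
  apply Real.exp_le_exp.2
  have hmr : 49 * (n : ℝ) ^ 2 ≤ 50 * m := by exact_mod_cast hm
  have g1 : 49 / 50 * (n : ℝ) ^ 2 * Real.log μ ≤ m * Real.log μ :=
    mul_le_mul_of_nonneg_right (by linarith) hlm0
  have g2 : (n : ℝ) ^ 2 * (Real.log κ + 1 / 10 + 1 / 50) ≤ (n : ℝ) ^ 2 * (49 / 50 * Real.log μ) :=
    mul_le_mul_of_nonneg_left hent (by positivity)
  have hL0 : 0 ≤ L := by positivity
  have hnL : (n : ℝ) ≤ n * (2.25 * L) := by nlinarith
  have g3 : Real.log 2 * (12 * n + 12) ≤ 20 * ((n + 1) * L) := by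
    have h1 : Real.log 2 * (12 * n + 12) ≤ 0.7 * (12 * n + 12) :=
      mul_le_mul_of_nonneg_right hl2 (by positivity)
    nlinarith
  have g4 : Real.log μ ≤ 3 * Real.log μ * ((n + 1) * L) := by
    have h1 : (1 : ℝ) ≤ 3 * ((n + 1) * L) := by nlinarith
    nlinarith
  have hnL0 : 0 ≤ (n : ℝ) * L := by positivity
  have hKL : 0 ≤ K * L := by positivity
  have hKnL : 0 ≤ K * (n * L) := by positivity
  have g5 : (4 * (n : ℝ) + 5) * ((K + 9) * L) ≤ (5 * K + 45) * ((n + 1) * L) := by nlinarith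
  nlinarith

/-- the outer vertices with `a` -/
noncomputable def ON3 (i j : ℤ) (n : ℕ) (a : V) : Finset V :=
  insert a (Bx (i - 1) (j - 1) (n + 2) \ Bx i j n)

theorem card_Bx (i j : ℤ) (n : ℕ) : (Bx i j n).card = n ^ 2 := by
  unfold Bx
  rw [Finset.card_product, Int.card_Ico, Int.card_Ico]
  simp
  ring

theorem card_ON3 (i j : ℤ) (n : ℕ) (a : V) : (ON3 i j n a).card ≤ 4 * n + 5 := by
  unfold ON3
  refine (Finset.card_insert_le _ _).trans ?_
  have hsub : Bx i j n ⊆ Bx (i - 1) (j - 1) (n + 2) := by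
    intro v hv
    rw [mem_Bx] at hv ⊢
    push_cast
    omega
  rw [Finset.card_sdiff_of_subset hsub, card_Bx, card_Bx]
  have : (n + 2) ^ 2 = n ^ 2 + (4 * n + 4) := by ring
  omega

theorem mem_ON3 {S : Finset V} (hS : Ok S) {i j : ℤ} {n : ℕ} (a : V) {u : V} (hu : u ∉ Bx i j n)
    (h : ∃ z ∈ Bx i j n, Ad S z u) : u ∈ ON3 i j n a := by
  obtain ⟨z, hz, hzu⟩ := h
  unfold ON3
  rw [Finset.mem_insert, Finset.mem_sdiff]
  right
  refine ⟨?_, hu⟩
  have h1 : (u.1 - z.1 ≤ 1 ∧ z.1 - u.1 ≤ 1) ∧ (u.2 - z.2 ≤ 1 ∧ z.2 - u.2 ≤ 1) := by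
    unfold Ad at hzu
    rcases hS with rfl | rfl
    · unfold S2 at hzu
      simp only [Finset.mem_insert, Finset.mem_singleton, Prod.ext_iff, Prod.fst_sub,
        Prod.snd_sub] at hzu
      omega
    · unfold S3 at hzu
      simp only [Finset.mem_insert, Finset.mem_singleton, Prod.ext_iff, Prod.fst_sub,
        Prod.snd_sub] at hzu
      omega
  rw [mem_Bx] at hz ⊢
  push_cast
  omega

theorem fin3 (hENT : S_ENT) (hLSU : S_LSU) {S : Finset V} {μ K : ℝ} (H : Fc S μ K) :
    ∀ (D : Finset V) (a b : V) (i j : ℤ) (n : ℕ) (T : Finset (List V)),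
    (∀ l ∈ T, Wk S a b l ∧ (∀ p ∈ l, p ∈ D) ∧
      49 * n ^ 2 < 50 * (l.filter (fun v => v ∈ Bx i j n)).length) →
    ∑ l ∈ T, xm μ ^ (l.length - 1) ≤
      ENNReal.ofReal (Real.exp ((5 * K + 3 * Real.log μ + 100) *
        ((n + 1) * Real.log (D.card + 2) ^ 2) - n ^ 2 / 50)) := by
  intro D a b i j n T hT
  have hK0 := H.K0
  have hmu : 0 < μ := lt_of_lt_of_le one_pos H.one
  rcases T.eq_empty_or_nonempty with rfl | ⟨l0, hl0⟩
  · simp
  set d := D.card with hd
  have hlen : ∀ l : List V, l.Nodup → (∀ p ∈ l, p ∈ D) → l.length ≤ d := by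
    intro l hn hD
    rw [← List.toFinset_card_of_nodup hn]
    apply Finset.card_le_card
    intro p hp
    exact hD p (List.mem_toFinset.1 hp)
  have hnd : n ≤ 2 * d := by
    obtain ⟨⟨h1, h2, h3, h4⟩, h5, h6⟩ := hT l0 hl0
    have h7 := hlen l0 h3 h5
    have h8 : (l0.filter (fun v => v ∈ Bx i j n)).length ≤ l0.length := List.length_filter_le _ _
    by_contra hcon
    push Not at hcon
    have h9 : 49 * n ^ 2 < 50 * d := by omega
    nlinarith
  have hw : ∀ l ∈ T, xm μ ^ (l.length - 1) = ENNReal.ofReal μ * xm μ ^ l.length := by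
    intro l hl
    obtain ⟨⟨h1, -⟩, -⟩ := hT l hl
    match l, h1 with
    | x :: xs, _ =>
      rw [List.length_cons, Nat.add_sub_cancel, xm_pow hmu, xm_pow hmu,
        ← ENNReal.ofReal_mul hmu.le]
      congr 1
      rw [pow_succ]
      field_simp
  rw [Finset.sum_congr rfl hw, ← Finset.mul_sum]
  set m := 49 * n ^ 2 / 50 + 1 with hm
  set N := ON3 i j n a with hN
  have hNc := card_ON3 i j n a
  rw [← hN] at hNc
  have haN : a ∈ N := by rw [hN]; unfold ON3; exact Finset.mem_insert_self _ _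
  set P : Finset (List V) := T.biUnion (fun l => (outs (Bx i j n) l).toFinset) with hP
  set F : Finset (Finset V) := (Bx i j n).powerset.filter (fun E => 50 * E.card ≤ (Bx i j n).card)
    with hF
  have hx1 : xm μ ≤ 1 := by
    unfold xm
    rw [← ENNReal.ofReal_one]
    apply ENNReal.ofReal_le_ofReal
    rw [div_le_one hmu]
    exact H.one
  have hms := hLSU S H.ok (xm μ) hx1 i j n a b T m F N P
    (fun l hl => (hT l hl).1)
    (fun l hl => by
      have h6 := (hT l hl).2.2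
      omega)
    (fun l hl => by
      have h6 := (hT l hl).2.2
      rw [hF, Finset.mem_filter, Finset.mem_powerset]
      refine ⟨Finset.filter_subset _ _, ?_⟩
      have h7 : (l.filter (fun v => v ∈ Bx i j n)).length =
          ((Bx i j n).filter (fun v => v ∈ l)).card := by
        rw [← List.toFinset_card_of_nodup ((hT l hl).1.2.2.1.filter _)]
        congr 1
        ext v
        simp only [List.mem_toFinset, List.mem_filter, decide_eq_true_eq, Finset.mem_filter]
        exact and_comm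
      have h8 : ((Bx i j n).filter (fun v => v ∈ l)).card +
          ((Bx i j n).filter (fun v => v ∉ l)).card = (Bx i j n).card := by
        convert Finset.card_filter_add_card_filter_not (s := Bx i j n) (fun v => v ∈ l)
      rw [h7] at h6
      rw [card_Bx] at h8 ⊢
      omega)
    (fun l hl => by
      refine outs_count' (hT l hl).1.2.2.2 (hT l hl).1.2.2.1 N ?_
      rintro u hub (hu | hu)
      · rw [(hT l hl).1.1] at hu
        simp only [Option.some.injEq] at hu
        rw [← hu]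
        exact haN
      · exact mem_ON3 H.ok a hub hu)
    (fun l hl r hr => by
      rw [hP, Finset.mem_biUnion]
      exact ⟨l, hl, List.mem_toFinset.2 hr⟩)
  have hPr : ∀ r ∈ P, r.IsChain (Ad S) ∧ r.Nodup ∧ r.length ≤ d ∧ ∃ u ∈ N, r.head? = some u := by
    intro r hr
    rw [hP, Finset.mem_biUnion] at hr
    obtain ⟨l, hl, hr⟩ := hr
    rw [List.mem_toFinset] at hr
    obtain ⟨⟨h1, h2, h3, h4⟩, h5, -⟩ := hT l hl
    obtain ⟨g1, g2, g3, g4⟩ := outs_mem' h4 hr
    have g5 : r.Nodup := h3.sublist g2.sublist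
    have g6 : r.IsChain (Ad S) := by
      obtain ⟨s, t, e⟩ := g2
      rw [← e] at h4
      exact (List.isChain_append.1 (List.isChain_append.1 h4).1).2.1
    refine ⟨g6, g5, hlen r g5 (fun p hp => h5 p (g2.subset hp)), ?_⟩
    obtain ⟨u, us, rfl⟩ := List.exists_cons_of_ne_nil g1
    refine ⟨u, ?_, rfl⟩
    rcases g4 u rfl with h | h
    · rw [h1] at h
      simp only [Option.some.injEq] at h
      rw [← h]
      exact haN
    · exact mem_ON3 H.ok a (g3 u (List.mem_cons_self)) h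
  have hS := S_bd H P N d hPr
  set A : ℝ := (4 * n + 5) * d * Real.exp (K * Real.log (d + 2) ^ 2) / μ with hA
  have hA0 : 0 ≤ A := by positivity
  have hS' : ∑ r ∈ P, xm μ ^ r.length ≤ ENNReal.ofReal A := by
    refine hS.trans (ENNReal.ofReal_le_ofReal ?_)
    rw [hA]
    have : (N.card : ℝ) ≤ 4 * n + 5 := by exact_mod_cast hNc
    gcongr
  have h1A : (1 : ℝ≥0∞) ≤ ENNReal.ofReal (1 + A) := by
    rw [← ENNReal.ofReal_one]
    exact ENNReal.ofReal_le_ofReal (by linarith)
  have hsum : ∑ k ∈ Finset.range (N.card + 1), (∑ r ∈ P, xm μ ^ r.length) ^ k ≤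
      ENNReal.ofReal ((4 * n + 6) * (1 + A) ^ (4 * n + 5)) := by
    have h2 : ∀ k ∈ Finset.range (N.card + 1), (∑ r ∈ P, xm μ ^ r.length) ^ k ≤
        ENNReal.ofReal (1 + A) ^ (4 * n + 5) := by
      intro k hk
      rw [Finset.mem_range] at hk
      have h3 : ∑ r ∈ P, xm μ ^ r.length ≤ ENNReal.ofReal (1 + A) :=
        hS'.trans (ENNReal.ofReal_le_ofReal (by linarith))
      exact (pow_le_pow_left₀ zero_le h3 k).trans (pow_le_pow_right₀ h1A (by omega))
    refine (Finset.sum_le_sum h2).trans ?_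
    rw [Finset.sum_const, Finset.card_range, nsmul_eq_mul,
      ← ENNReal.ofReal_pow (by positivity), ← ENNReal.ofReal_natCast,
      ← ENNReal.ofReal_mul (by positivity)]
    apply ENNReal.ofReal_le_ofReal
    have : ((N.card + 1 : ℕ) : ℝ) ≤ 4 * n + 6 := by
      have : (N.card : ℝ) ≤ 4 * n + 5 := by exact_mod_cast hNc
      push_cast
      linarith
    gcongr
  have hFc : (F.card : ℝ≥0∞) ≤ ENNReal.ofReal (Real.exp ((n : ℝ) ^ 2 / 10)) := by
    rw [← ENNReal.ofReal_natCast]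
    apply ENNReal.ofReal_le_ofReal
    have h := hENT (Bx i j n)
    rw [card_Bx] at h
    push_cast at h
    rw [hF, card_Bx]
    exact h
  have hcard1 : 1 ≤ S.card := by
    rcases H.ok with rfl | rfl <;> decide
  have h2K : (F.card : ℝ≥0∞) * 2 ^ (12 * n + 12) * (S.card : ℝ≥0∞) ^ (n ^ 2) ≤
      ENNReal.ofReal (Real.exp ((n : ℝ) ^ 2 / 10) * 2 ^ (12 * n + 12) * (S.card : ℝ) ^ (n ^ 2)) := by
    rw [ENNReal.ofReal_mul (by positivity), ENNReal.ofReal_mul (by positivity),
      ENNReal.ofReal_pow (by norm_num), ENNReal.ofReal_pow (by positivity),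
      ENNReal.ofReal_natCast]
    have h3 : ENNReal.ofReal 2 = 2 := by simp
    rw [h3]
    exact mul_le_mul_left (mul_le_mul_left hFc _) _
  calc ENNReal.ofReal μ * ∑ l ∈ T, xm μ ^ l.length
      ≤ ENNReal.ofReal μ * (xm μ ^ m * (ENNReal.ofReal (Real.exp ((n : ℝ) ^ 2 / 10) *
          2 ^ (12 * n + 12) * (S.card : ℝ) ^ (n ^ 2)) *
          ENNReal.ofReal ((4 * n + 6) * (1 + A) ^ (4 * n + 5)))) :=
        mul_le_mul_right (hms.trans (mul_le_mul_right (mul_le_mul' h2K hsum) _)) _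
    _ = ENNReal.ofReal (μ * ((1 / μ) ^ m * (Real.exp ((n : ℝ) ^ 2 / 10) *
          2 ^ (12 * n + 12) * (S.card : ℝ) ^ (n ^ 2) *
          ((4 * n + 6) * (1 + A) ^ (4 * n + 5))))) := by
        rw [xm_pow hmu, ← ENNReal.ofReal_mul (by positivity), ← ENNReal.ofReal_mul (by positivity),
          ← ENNReal.ofReal_mul (by positivity)]
    _ ≤ _ := by
        apply ENNReal.ofReal_le_ofReal
        exact num3 K μ S.card hK0 H.one hcard1 H.ent n d m hnd (by omega)

end Pool.Agent.H21.T3
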