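import Pool.Agent.H21.T3.Stm
import Pool.Graph.R_pool_sql_team_seeded_63374d34.N932.FL.Three
import Pool.Graph.R_seed8.H976R3.HPL.B5

/-!
Generic lemmas and the facts from the library.
-/

set_option autoImplicit false

namespace Pool.Agent.H21.T3

open scoped ENNReal
open Classical
open Pool.Agent.H21.SD (c outs cp Bx)

section cut

variable {A : V → V → Prop} {B : Finset V}

theorem cp_head' : ∀ (l : List V) (r : List V), l.IsChain A → r ∈ (cp B l).2 → ∀ u,
    r.head? = some u → ∃ z ∈ B, A z u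
  | [], r, _, h, _, _ => by simp [cp] at h
  | x :: xs, r, hc, h, u, hu => by
    have hc' : xs.IsChain A := hc.tail
    by_cases hx : x ∈ B
    · rw [SD.cp_in hx] at h
      rcases List.mem_cons.1 h with rfl | h
      · have h1 := SD.cp_prefix (B := B) xs
        have h2 : xs.head? = some u := by
          obtain ⟨t, ht⟩ := h1
          rw [← ht, List.head?_append, hu]
          rfl
        match xs, h2 with
        | y :: ys, h2 =>
          simp only [List.head?_cons, Option.some.injEq] at h2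
          subst h2
          exact ⟨x, hx, (List.isChain_cons_cons.1 hc).1⟩
      · exact cp_head' xs r hc' h u hu
    · rw [SD.cp_out hx] at h
      exact cp_head' xs r hc' h u hu

theorem outs_mem' {l : List V} (hc : l.IsChain A) {r : List V} (hr : r ∈ outs B l) :
    r ≠ [] ∧ r <:+: l ∧ (∀ v ∈ r, v ∉ B) ∧
      ∀ u, r.head? = some u → l.head? = some u ∨ ∃ z ∈ B, A z u := by
  unfold outs at hr
  rw [List.mem_filter] at hr
  obtain ⟨h1, h2⟩ := hr
  have h2' : r ≠ [] := by simpa using h2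
  obtain ⟨h3, h4⟩ := SD.cp_not_mem (B := B) l
  rcases List.mem_cons.1 h1 with rfl | h1
  · refine ⟨h2', (SD.cp_prefix l).isInfix, h3, fun u hu => Or.inl ?_⟩
    obtain ⟨t, ht⟩ := SD.cp_prefix (B := B) l
    rw [← ht, List.head?_append, hu]
    rfl
  · exact ⟨h2', SD.cp_infix l r h1, h4 r h1, fun u hu => Or.inr (cp_head' l r hc h1 u hu)⟩

theorem outs_count' {l : List V} (hc : l.IsChain A) (hn : l.Nodup) (N : Finset V)
    (hN : ∀ u, u ∉ B → (l.head? = some u ∨ ∃ z ∈ B, A z u) → u ∈ N) :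
    (outs B l).length ≤ N.card := by
  have hfl : ((cp B l).1 :: (cp B l).2).flatten.Nodup := by
    rw [SD.cp_flatten]
    exact hn.filter _
  rw [List.nodup_flatten] at hfl
  have hpd : (outs B l).Pairwise List.Disjoint := by
    unfold outs
    exact hfl.2.filter _
  have hne : ∀ r ∈ outs B l, r ≠ [] := fun r hr => (outs_mem' hc hr).1
  have hnd : ((outs B l).map (fun r => r.headD (0, 0))).Nodup := by
    rw [List.Nodup, List.pairwise_map]
    refine hpd.imp_of_mem ?_
    intro r s hr hs hd heq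
    obtain ⟨x, xs, rfl⟩ := List.exists_cons_of_ne_nil (hne r hr)
    obtain ⟨y, ys, rfl⟩ := List.exists_cons_of_ne_nil (hne s hs)
    simp only [List.headD_cons] at heq
    subst heq
    exact hd (List.mem_cons_self) (List.mem_cons_self)
  calc (outs B l).length = ((outs B l).map (fun r => r.headD (0, 0))).length := by simp
    _ = ((outs B l).map (fun r => r.headD (0, 0))).toFinset.card :=
        (List.toFinset_card_of_nodup hnd).symm
    _ ≤ N.card := by
      apply Finset.card_le_card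
      intro u hu
      rw [List.mem_toFinset, List.mem_map] at hu
      obtain ⟨r, hr, rfl⟩ := hu
      obtain ⟨x, xs, rfl⟩ := List.exists_cons_of_ne_nil (hne r hr)
      exact hN _ ((outs_mem' hc hr).2.2.1 x (List.mem_cons_self)) ((outs_mem' hc hr).2.2.2 x rfl)

end cut

/-- the self-avoiding walks as functions -/
def wk (S : Finset V) (n : ℕ) : Set (Fin (n + 1) → V) :=
  {f | f 0 = 0 ∧ Function.Injective f ∧ ∀ i : Fin n, Ad S (f i.castSucc) (f i.succ)}

theorem ad_sq : Ad S2 = Pool.Agent.N932.FL.AdjS := by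
  funext p q
  apply propext
  unfold Ad S2 Pool.Agent.N932.FL.AdjS
  simp only [Finset.mem_insert, Finset.mem_singleton, Prod.ext_iff, Prod.fst_sub, Prod.snd_sub]
  constructor
  · intro h
    have h1 : (p.1 - q.1 = 1 ∧ p.2 - q.2 = 0) ∨ (p.1 - q.1 = -1 ∧ p.2 - q.2 = 0) ∨
      (p.1 - q.1 = 0 ∧ p.2 - q.2 = 1) ∨ (p.1 - q.1 = 0 ∧ p.2 - q.2 = -1) := by omega
    rcases h1 with ⟨h1, h2⟩ | ⟨h1, h2⟩ | ⟨h1, h2⟩ | ⟨h1, h2⟩ <;> rw [h1, h2] <;> norm_num
  · intro h
    rcases abs_cases (p.1 - q.1) with h1 | h1 <;> rcases abs_cases (p.2 - q.2) with h2 | h2 <;>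
      omega

theorem ad_tri : Ad S3 = Pool.Agent.N932.FL.AdjT := by
  funext p q
  apply propext
  unfold Ad S3 Pool.Agent.N932.FL.AdjT
  simp only [Finset.mem_insert, Finset.mem_singleton, Set.mem_insert_iff, Set.mem_singleton_iff,
    Prod.ext_iff, Prod.fst_sub, Prod.snd_sub]
  omega

theorem wk_finite {S : Finset V} (hS : Ok S) (n : ℕ) : (wk S n).Finite := by
  rcases hS with rfl | rfl
  · have h := Pool.Agent.N932.FL.sqLat.finite n
    unfold Pool.Agent.N932.FL.Lat.walks at h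
    unfold wk
    rw [ad_sq]
    exact h
  · have h := Pool.Agent.N932.FL.triLat.finite n
    unfold Pool.Agent.N932.FL.Lat.walks at h
    unfold wk
    rw [ad_tri]
    exact h

/-- number of lists -/
theorem lst {S : Finset V} (hS : Ok S) (u : V) (m : ℕ) (F : Finset (List V))
    (hF : ∀ l ∈ F, l.length = m + 1 ∧ l.head? = some u ∧ l.IsChain (Ad S) ∧ l.Nodup) :
    F.card ≤ (wk S m).ncard := by
  rw [← Set.ncard_coe_finset]
  refine Set.ncard_le_ncard_of_injOn (fun l => fun k : Fin (m + 1) => l.getD k (0, 0) - u)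
    ?_ ?_ (wk_finite hS m)
  · intro l hl
    obtain ⟨h1, h2, h3, h4⟩ := hF l (Finset.mem_coe.1 hl)
    have hg : ∀ k : ℕ, (hk : k < l.length) → l.getD k (0, 0) = l[k] := fun k hk => by
      rw [List.getD_eq_getElem _ _ hk]
    refine ⟨?_, ?_, ?_⟩
    · match l, h2 with
      | x :: xs, h2 =>
        simp only [List.head?_cons, Option.some.injEq] at h2
        simp [h2]
    · intro i k hik
      simp only at hik
      have h5 := sub_left_injective hik
      rw [hg i (by omega), hg k (by omega)] at h5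
      exact Fin.ext ((List.Nodup.getElem_inj_iff h4).1 h5)
    · intro i
      have h5 := List.isChain_iff_getElem.1 h3 i (by omega)
      simp only [Fin.val_castSucc, Fin.val_succ]
      rw [hg i (by omega), hg (i + 1) (by omega)]
      unfold Ad at h5 ⊢
      simpa using h5
  · intro l hl l' hl' h
    obtain ⟨h1, -⟩ := hF l (Finset.mem_coe.1 hl)
    obtain ⟨h1', -⟩ := hF l' (Finset.mem_coe.1 hl')
    apply List.ext_getElem (by omega)
    intro k hk hk'
    have h2 := congrFun h ⟨k, by omega⟩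
    simp only at h2
    have h3 := sub_left_injective h2
    rw [List.getD_eq_getElem _ _ hk, List.getD_eq_getElem _ _ hk'] at h3
    exact h3

/-- the facts -/
structure Fc (S : Finset V) (μ K : ℝ) : Prop where
  ok : Ok S
  one : 1 ≤ μ
  K0 : 0 ≤ K
  ent : Real.log S.card + 1 / 10 + 1 / 50 ≤ 49 / 50 * Real.log μ
  low : ∀ n, μ ^ n ≤ ((wk S n).ncard : ℝ)
  up : ∀ n : ℕ, ((wk S n).ncard : ℝ) ≤ μ ^ n * Real.exp (K * Real.log (n + 2) ^ 2)

theorem up_all {a : ℕ → ℝ} {μ K : ℝ} (hμ : 1 ≤ μ) (ha : ∀ n, 0 ≤ a n)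
    (h : ∀ n : ℕ, 2 ≤ n → a n ≤ μ ^ n * Real.exp (K * Real.log n ^ 2)) :
    ∃ K' : ℝ, 0 ≤ K' ∧ ∀ n : ℕ, a n ≤ μ ^ n * Real.exp (K' * Real.log (n + 2) ^ 2) := by
  refine ⟨|K| + 4 * (a 0 + a 1), by have := ha 0; have := ha 1; positivity, fun n => ?_⟩
  have h0 := ha 0
  have h1 := ha 1
  have hl2 : 0.6 ≤ Real.log 2 := by
    have := Real.log_two_gt_d9; linarith
  have hn0 : (0 : ℝ) ≤ n := Nat.cast_nonneg n
  have hl : Real.log 2 ≤ Real.log ((n : ℝ) + 2) := Real.log_le_log (by norm_num) (by linarith)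
  have hl36 : (1 : ℝ) ≤ 4 * Real.log ((n : ℝ) + 2) ^ 2 := by nlinarith
  have hμn : 1 ≤ μ ^ n := one_le_pow₀ hμ
  rcases Nat.lt_or_ge n 2 with hn | hn
  · have h2 : a n ≤ a 0 + a 1 := by
      interval_cases n <;> linarith
    have h3 : a 0 + a 1 ≤ (|K| + 4 * (a 0 + a 1)) * Real.log ((n : ℝ) + 2) ^ 2 := by
      have h4 : 0 ≤ |K| * Real.log ((n : ℝ) + 2) ^ 2 := by positivity
      nlinarith
    have h4 := Real.add_one_le_exp ((|K| + 4 * (a 0 + a 1)) * Real.log ((n : ℝ) + 2) ^ 2)
    have h5 := Real.exp_pos ((|K| + 4 * (a 0 + a 1)) * Real.log ((n : ℝ) + 2) ^ 2)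
    nlinarith
  · refine (h n hn).trans ?_
    apply mul_le_mul_of_nonneg_left _ (by positivity)
    apply Real.exp_le_exp.2
    have hn2 : (2 : ℝ) ≤ n := by exact_mod_cast hn
    have h2 : 0 ≤ Real.log (n : ℝ) := Real.log_nonneg (by linarith)
    have h3 : Real.log (n : ℝ) ≤ Real.log ((n : ℝ) + 2) := Real.log_le_log (by linarith) (by linarith)
    have h4 : Real.log (n : ℝ) ^ 2 ≤ Real.log ((n : ℝ) + 2) ^ 2 := pow_le_pow_left₀ h2 h3 2
    have h5 : K ≤ |K| := le_abs_self K
    have h6 : 0 ≤ |K| := abs_nonneg K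
    calc K * Real.log (n : ℝ) ^ 2 ≤ |K| * Real.log (n : ℝ) ^ 2 := by nlinarith [sq_nonneg (Real.log (n : ℝ))]
      _ ≤ |K| * Real.log ((n : ℝ) + 2) ^ 2 := mul_le_mul_of_nonneg_left h4 h6
      _ ≤ _ := by
        apply mul_le_mul_of_nonneg_right _ (by positivity)
        linarith

theorem facts_sq (hMUS : S_MUS) : ∃ μ K : ℝ, Fc S2 μ K := by
  obtain ⟨K, -, hK⟩ := @Pool.Agent.TH508.LT.cr'_upper2 H982P.sqL
  have hw : ∀ n, (((wk S2 n).ncard : ℕ) : ℝ) = @H982.cr' H982P.sqL n := by
    intro n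
    rw [← @H982.ncard_walks H982P.sqL _ _ _ H982P.coord_sq n]
    unfold wk H982.walks
    rw [ad_sq]
    rfl
  obtain ⟨K', hK'0, hK'⟩ := up_all (a := fun n => (((wk S2 n).ncard : ℕ) : ℝ))
    (@H982.one_le_mu H982P.sqL) (fun n => Nat.cast_nonneg _) (fun n hn => by
      rw [hw]
      exact hK n hn)
  have hlow : (12 / 5 : ℝ) ≤ @H982.mu H982P.sqL := by
    refine ge_of_tendsto (@H982.tendsto_root H982P.sqL) ?_
    filter_upwards [Filter.eventually_ge_atTop 1] with n hn
    have h2 : (0 : ℝ) < n := by exact_mod_cast hn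
    have h1 : (12 / 5 : ℝ) ^ n ≤ @H982.cr' H982P.sqL n := by
      rw [← hw]
      have := hMUS n
      unfold wk
      rw [ad_sq]
      exact this
    calc (12 / 5 : ℝ) = ((12 / 5 : ℝ) ^ n) ^ (1 / (n : ℝ)) := by
          rw [← Real.rpow_natCast, ← Real.rpow_mul (by norm_num), mul_one_div_cancel h2.ne',
            Real.rpow_one]
      _ ≤ _ := Real.rpow_le_rpow (by positivity) h1 (by positivity)
  refine ⟨@H982.mu H982P.sqL, K', Or.inl rfl, @H982.one_le_mu H982P.sqL, hK'0, ?_, ?_, hK'⟩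
  · have hc : (S2.card : ℝ) = 2 := by
      have : S2.card = 2 := by decide
      rw [this]; norm_num
    rw [hc]
    have h1 : Real.log (12 / 5) ≤ Real.log (@H982.mu H982P.sqL) :=
      Real.log_le_log (by norm_num) hlow
    have h2 : Real.log 2 + 12 / 100 ≤ 49 / 50 * Real.log (12 / 5) := by
      have h3 : 50 * Real.log 2 + 6 ≤ 49 * Real.log (12 / 5) := by
        have h4 : Real.log ((2 : ℝ) ^ 50 * Real.exp 6) ≤ Real.log ((12 / 5 : ℝ) ^ 49) := by
          apply Real.log_le_log (by positivity)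
          have h5 : Real.exp 6 = Real.exp 1 ^ 6 := by
            rw [← Real.exp_nat_mul]; norm_num
          rw [h5]
          have h6 : Real.exp 1 ^ 6 ≤ (2.7182818286 : ℝ) ^ 6 :=
            pow_le_pow_left₀ (Real.exp_pos _).le Real.exp_one_lt_d9.le 6
          calc (2 : ℝ) ^ 50 * Real.exp 1 ^ 6 ≤ (2 : ℝ) ^ 50 * (2.7182818286 : ℝ) ^ 6 := by gcongr
            _ ≤ (12 / 5 : ℝ) ^ 49 := by norm_num
        rw [Real.log_mul (by positivity) (by positivity), Real.log_exp, Real.log_pow,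
          Real.log_pow] at h4
        push_cast at h4
        exact h4
      linarith
    linarith
  · intro n
    rw [hw]
    exact @H982.mu_pow_le H982P.sqL n

theorem facts_tri : ∃ μ K : ℝ, Fc S3 μ K := by
  obtain ⟨K, -, hK⟩ := @Pool.Agent.TH508.LT.cr'_upper2 H982P.triL
  have hw : ∀ n, (((wk S3 n).ncard : ℕ) : ℝ) = @H982.cr' H982P.triL n := by
    intro n
    rw [← @H982.ncard_walks H982P.triL _ _ _ H982P.coord_tri n]
    unfold wk H982.walks
    rw [ad_tri]
    rfl
  obtain ⟨K', hK'0, hK'⟩ := up_all (a := fun n => (((wk S3 n).ncard : ℕ) : ℝ))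
    (@H982.one_le_mu H982P.triL) (fun n => Nat.cast_nonneg _) (fun n hn => by
      rw [hw]
      exact hK n hn)
  have hlow : (89 / 25 : ℝ) ≤ @H982.mu H982P.triL := Pool.Agent.H976R3.HPL.mu_tri
  refine ⟨@H982.mu H982P.triL, K', Or.inr rfl, @H982.one_le_mu H982P.triL, hK'0, ?_, ?_, hK'⟩
  · have hc : (S3.card : ℝ) = 3 := by
      have : S3.card = 3 := by decide
      rw [this]; norm_num
    rw [hc]
    have h1 : Real.log (89 / 25) ≤ Real.log (@H982.mu H982P.triL) :=
      Real.log_le_log (by norm_num) hlow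
    have h2 : Real.log 3 + 12 / 100 ≤ 49 / 50 * Real.log (89 / 25) := by
      have h3 : 50 * Real.log 3 + 6 ≤ 49 * Real.log (89 / 25) := by
        have h4 : Real.log ((3 : ℝ) ^ 50 * Real.exp 6) ≤ Real.log ((89 / 25 : ℝ) ^ 49) := by
          apply Real.log_le_log (by positivity)
          have h5 : Real.exp 6 = Real.exp 1 ^ 6 := by
            rw [← Real.exp_nat_mul]; norm_num
          rw [h5]
          have h6 : Real.exp 1 ^ 6 ≤ (2.7182818286 : ℝ) ^ 6 :=
            pow_le_pow_left₀ (Real.exp_pos _).le Real.exp_one_lt_d9.le 6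
          calc (3 : ℝ) ^ 50 * Real.exp 1 ^ 6 ≤ (3 : ℝ) ^ 50 * (2.7182818286 : ℝ) ^ 6 := by gcongr
            _ ≤ (89 / 25 : ℝ) ^ 49 := by norm_num
        rw [Real.log_mul (by positivity) (by positivity), Real.log_exp, Real.log_pow,
          Real.log_pow] at h4
        push_cast at h4
        exact h4
      linarith
    linarith
  · intro n
    rw [hw]
    exact @H982.mu_pow_le H982P.triL n

end Pool.Agent.H21.T3
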