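import Pool.Agent.H21.T3.Uni3
import Pool.Graph.R_seed8.TH508.LT.Fin2

/-!
Polygons on the square lattice.
-/

set_option autoImplicit false

namespace Pool.Agent.H21.T3

open scoped ENNReal
open Classical Filter Topology
open Pool.Agent.H21.SD (bc)

/-- rooted oriented polygons -/
def pg (n : ℕ) : Set (ZMod (2 * n) → ℤ × ℤ) :=
  {f | f 0 = 0 ∧ Function.Injective f ∧
    ∀ i : ZMod (2 * n), |(f (i + 1)).1 - (f i).1| + |(f (i + 1)).2 - (f i).2| = 1}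

noncomputable def pbc (i j : ℤ) (m : ℕ) {n : ℕ} (f : ZMod (2 * n) → ℤ × ℤ) : ℕ :=
  {v : ℤ × ℤ | v ∈ Set.range f ∧ (i ≤ v.1 ∧ v.1 < i + m) ∧ (j ≤ v.2 ∧ v.2 < j + m)}.ncard

/-- the walk of a polygon -/
def pw {n : ℕ} (f : ZMod (2 * n) → ℤ × ℤ) : Fin (2 * n - 1 + 1) → ℤ × ℤ :=
  fun k => f (k.1 : ZMod (2 * n))

theorem pw_range {n : ℕ} (hn : 1 ≤ n) (f : ZMod (2 * n) → ℤ × ℤ) :
    Set.range (pw f) = Set.range f := by
  have : NeZero (2 * n) := ⟨by omega⟩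
  ext v
  constructor
  · rintro ⟨k, rfl⟩
    exact ⟨_, rfl⟩
  · rintro ⟨z, rfl⟩
    refine ⟨⟨z.val, by have := ZMod.val_lt z; omega⟩, ?_⟩
    unfold pw
    simp only
    rw [ZMod.natCast_zmod_val]

theorem pw_inj {n : ℕ} (hn : 1 ≤ n) : Function.Injective (pw (n := n)) := by
  have : NeZero (2 * n) := ⟨by omega⟩
  intro f g h
  funext z
  have h1 := congrFun h ⟨z.val, by have := ZMod.val_lt z; omega⟩
  unfold pw at h1
  simp only at h1
  rwa [ZMod.natCast_zmod_val] at h1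

theorem pw_mem {n : ℕ} (hn : 1 ≤ n) {f : ZMod (2 * n) → ℤ × ℤ} (hf : f ∈ pg n) :
    pw f ∈ wk S2 (2 * n - 1) := by
  have : NeZero (2 * n) := ⟨by omega⟩
  obtain ⟨h1, h2, h3⟩ := hf
  refine ⟨?_, ?_, ?_⟩
  · unfold pw
    simp [h1]
  · intro a b hab
    unfold pw at hab
    have h4 := h2 hab
    rw [ZMod.natCast_eq_natCast_iff'] at h4
    rw [Nat.mod_eq_of_lt (by omega), Nat.mod_eq_of_lt (by omega)] at h4
    exact Fin.ext h4
  · intro i
    rw [ad_sq]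
    unfold Pool.Agent.N932.FL.AdjS pw
    have h4 := h3 (i.1 : ZMod (2 * n))
    simp only [Fin.val_castSucc, Fin.val_succ]
    push_cast
    rw [abs_sub_comm (f (i.1 : ZMod (2 * n))).1, abs_sub_comm (f (i.1 : ZMod (2 * n))).2]
    exact h4

theorem pg_finite {n : ℕ} (hn : 1 ≤ n) : (pg n).Finite := by
  refine Set.Finite.of_finite_image ?_ ((pw_inj hn).injOn (s := pg n))
  refine (wk_finite (Or.inl rfl) (2 * n - 1)).subset ?_
  rintro g ⟨f, hf, rfl⟩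
  exact pw_mem hn hf

theorem bad_le {n : ℕ} (hn : 1 ≤ n) (E : ℤ → ℤ → ℕ → ℕ → Prop) :
    {f ∈ pg n | ∃ (i j : ℤ) (m : ℕ), E i j m (pbc i j m f)}.ncard ≤
      {f ∈ wk S2 (2 * n - 1) | ∃ (i j : ℤ) (m : ℕ), E i j m (bc i j m f)}.ncard := by
  refine Set.ncard_le_ncard_of_injOn pw ?_ ((pw_inj hn).injOn)
    ((wk_finite (Or.inl rfl) (2 * n - 1)).subset fun f hf => hf.1)
  rintro f ⟨hf, i, j, m, h⟩
  refine ⟨pw_mem hn hf, i, j, m, ?_⟩
  unfold pbc at h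
  unfold bc
  rw [pw_range hn]
  exact h

end Pool.Agent.H21.T3
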