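import Pool.Agent.H21.T3.Poly

/-!
Polygons on the square lattice: the bound.
-/

set_option autoImplicit false

namespace Pool.Agent.H21.T3

open scoped ENNReal
open Classical Filter Topology
open Pool.Agent.H21.SD (bc numbers)

theorem wk_cr (n : ℕ) : (((wk S2 n).ncard : ℕ) : ℝ) = @H982.cr' H982P.sqL n := by
  rw [← @H982.ncard_walks H982P.sqL _ _ _ H982P.coord_sq n]
  unfold wk H982.walks
  rw [ad_sq]
  rfl

theorem wk_cr1 (n : ℕ) : (((wk S2 n).ncard : ℕ) : ℝ) = H981.cr' n := by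
  rw [H981.cr'_eq]
  unfold H981.C H981.IsSAW
  congr 1
  rw [← Nat.card_coe_set_eq]
  apply Nat.card_congr
  apply Equiv.subtypeEquivRight
  intro f
  unfold wk
  rw [ad_sq]
  unfold Pool.Agent.N932.FL.AdjS
  constructor
  · rintro ⟨h0, h1, h2⟩
    refine ⟨h0, fun i => ?_, h1⟩
    rw [abs_sub_comm (f i.succ).1, abs_sub_comm (f i.succ).2]
    exact h2 i
  · rintro ⟨h0, h2, h1⟩
    refine ⟨h0, h1, fun i => ?_⟩
    rw [abs_sub_comm (f i.castSucc).1, abs_sub_comm (f i.castSucc).2]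
    exact h2 i

theorem mu_sq_eq : @H982.mu H982P.sqL = H981.mu := by
  have h1 := @H982.tendsto_root H982P.sqL
  have h2 := H981.tendsto_root
  refine tendsto_nhds_unique h1 (h2.congr fun n => ?_)
  rw [← wk_cr1, wk_cr]

theorem facts_sq2 (hMUS : S_MUS) : ∃ K : ℝ, Fc S2 H981.mu K := by
  obtain ⟨μ, K, H⟩ := facts_sq hMUS
  have hμ : μ = @H982.mu H982P.sqL := by
    have hmu : 0 < μ := lt_of_lt_of_le one_pos H.one
    have h1 := @H982.tendsto_root H982P.sqL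
    refine tendsto_nhds_unique ?_ h1
    have hz : Tendsto (fun n : ℕ => Real.exp (K * Real.log ((n : ℝ) + 2) ^ 2 * (1 / (n : ℝ)))) atTop
        (𝓝 1) := by
      have h2 : Tendsto (fun x : ℝ => Real.log (x + 2) ^ 2 / x) atTop (𝓝 0) := by
        have h3 : Tendsto (fun x : ℝ => Real.log x ^ 2 / (1 * x + (-2))) atTop (𝓝 0) :=
          Real.tendsto_pow_log_div_mul_add_atTop 1 (-2) 2 one_ne_zero
        have h4 := h3.comp (tendsto_atTop_add_const_right atTop (2 : ℝ) tendsto_id)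
        refine h4.congr fun x => ?_
        simp only [Function.comp, id]
        congr 1
        ring
      have h5 := (h2.comp tendsto_natCast_atTop_atTop).const_mul K
      rw [mul_zero] at h5
      have hz' : Tendsto (fun n : ℕ => K * Real.log ((n : ℝ) + 2) ^ 2 * (1 / (n : ℝ))) atTop
          (𝓝 0) := by
        refine h5.congr fun n => ?_
        simp only [Function.comp]
        ring
      have h9 := (Real.continuous_exp.tendsto 0).comp hz'
      rw [Real.exp_zero] at h9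
      exact h9
    have hup : Tendsto (fun n : ℕ => μ * Real.exp (K * Real.log ((n : ℝ) + 2) ^ 2 * (1 / (n : ℝ))))
        atTop (𝓝 μ) := by
      have := hz.const_mul μ
      rwa [mul_one] at this
    have hev : Tendsto (fun n : ℕ => (@H982.cr' H982P.sqL n) ^ (1 / (n : ℝ))) atTop (𝓝 μ) := by
      refine tendsto_of_tendsto_of_tendsto_of_le_of_le' tendsto_const_nhds hup ?_ ?_
      · filter_upwards [eventually_ge_atTop 1] with n hn
        have hn0 : (0 : ℝ) < n := by exact_mod_cast hn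
        rw [← wk_cr]
        calc μ = (μ ^ n) ^ (1 / (n : ℝ)) := by
              rw [← Real.rpow_natCast, ← Real.rpow_mul hmu.le, mul_one_div_cancel hn0.ne',
                Real.rpow_one]
          _ ≤ _ := Real.rpow_le_rpow (by positivity) (H.low n) (by positivity)
      · filter_upwards [eventually_ge_atTop 1] with n hn
        have hn0 : (0 : ℝ) < n := by exact_mod_cast hn
        rw [← wk_cr]
        calc (((wk S2 n).ncard : ℕ) : ℝ) ^ (1 / (n : ℝ)) ≤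
            (μ ^ n * Real.exp (K * Real.log ((n : ℝ) + 2) ^ 2)) ^ (1 / (n : ℝ)) :=
              Real.rpow_le_rpow (Nat.cast_nonneg _) (H.up n) (by positivity)
          _ = μ * Real.exp (K * Real.log ((n : ℝ) + 2) ^ 2 * (1 / (n : ℝ))) := by
              rw [Real.mul_rpow (by positivity) (Real.exp_pos _).le, ← Real.rpow_natCast,
                ← Real.rpow_mul hmu.le, mul_one_div_cancel hn0.ne', Real.rpow_one, ← Real.exp_mul]
    exact hev
  rw [← mu_sq_eq, ← hμ]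
  exact ⟨K, H⟩

theorem poly_main (hENT : S_ENT) (hLSU : S_LSU) (hMUS : S_MUS) :
    ∃ C K : ℝ, 1 ≤ C ∧ 0 ≤ K ∧ ∀ n : ℕ, 3 ≤ n →
    ({f ∈ pg n | ∃ (i j : ℤ) (m : ℕ), C * Real.log n ^ 2 ≤ m ∧
      49 / 50 * (m : ℝ) ^ 2 < pbc i j m f}.ncard : ℝ) ≤
      Real.exp (K * Real.log n ^ 2 - Real.log n ^ 4) * (pg n).ncard ∧
    (0 : ℝ) < (pg n).ncard := by
  obtain ⟨K1, H⟩ := facts_sq2 hMUS
  obtain ⟨C0, hC0, h0⟩ := all3 hENT hLSU H
  obtain ⟨K2, hK20, h2⟩ := Pool.Agent.TH508.LT.sq_PP2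
  have hK10 := H.K0
  refine ⟨4 * C0, 4 * K1 + K2, by linarith, by linarith, fun n hn => ?_⟩
  have hℓ := (numbers n hn).1
  set ℓ := Real.log (n : ℝ) with hℓd
  have hmu : 0 < H981.mu := lt_of_lt_of_le one_pos H.one
  set N := 2 * n - 1 with hN
  have hN3 : 3 ≤ N := by omega
  have hn3 : (3 : ℝ) ≤ n := by exact_mod_cast hn
  have hNn : (n : ℝ) ≤ N := by exact_mod_cast (by omega : n ≤ N)
  have hN2 : ((N : ℕ) : ℝ) + 2 ≤ (n : ℝ) ^ 2 := by
    have h3 : (N : ℝ) + 2 = 2 * n + 1 := by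
      have : N + 2 = 2 * n + 1 := by omega
      exact_mod_cast this
    rw [h3]
    nlinarith
  have hl1 : ℓ ≤ Real.log (N : ℝ) := Real.log_le_log (by linarith) hNn
  have hl2 : Real.log ((N : ℝ) + 2) ≤ 2 * ℓ := by
    have : Real.log ((n : ℝ) ^ 2) = 2 * ℓ := by rw [Real.log_pow]; push_cast; rfl
    rw [← this]
    exact Real.log_le_log (by positivity) hN2
  have hl3 : Real.log (N : ℝ) ≤ 2 * ℓ :=
    (Real.log_le_log (by linarith) (by linarith)).trans hl2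
  have hl30 : 0 ≤ Real.log (N : ℝ) := by linarith
  have hl20 : 0 ≤ Real.log ((N : ℝ) + 2) := Real.log_nonneg (by linarith)
  have b1 := bad_le (n := n) (by omega) (fun i j m k => 4 * C0 * ℓ ^ 2 ≤ m ∧ 49 / 50 * (m : ℝ) ^ 2 < k)
  have b2 : {f ∈ wk S2 N | ∃ (i j : ℤ) (m : ℕ), 4 * C0 * ℓ ^ 2 ≤ m ∧
      49 / 50 * (m : ℝ) ^ 2 < bc i j m f}.ncard ≤ {f ∈ wk S2 N | ∃ (i j : ℤ) (m : ℕ),
      C0 * Real.log N ^ 2 ≤ m ∧ 49 / 50 * (m : ℝ) ^ 2 < bc i j m f}.ncard := by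
    refine Set.ncard_le_ncard ?_ ((wk_finite (Or.inl rfl) N).subset fun f hf => hf.1)
    rintro f ⟨hf, i, j, m, g1, g2⟩
    refine ⟨hf, i, j, m, le_trans ?_ g1, g2⟩
    have h3 : Real.log (N : ℝ) ^ 2 ≤ (2 * ℓ) ^ 2 := pow_le_pow_left₀ hl30 hl3 2
    nlinarith
  have b3 := h0 C0 le_rfl N hN3
  have b4 : (({f ∈ pg n | ∃ (i j : ℤ) (m : ℕ), 4 * C0 * ℓ ^ 2 ≤ m ∧
      49 / 50 * (m : ℝ) ^ 2 < pbc i j m f}.ncard : ℕ) : ℝ) ≤
      Real.exp (-Real.log N ^ 4) * (wk S2 N).ncard :=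
    le_trans (by exact_mod_cast b1.trans b2) b3
  have b5 : (((wk S2 N).ncard : ℕ) : ℝ) ≤ H981.mu ^ (2 * n) * Real.exp (4 * K1 * ℓ ^ 2) := by
    refine (H.up N).trans ?_
    have h3 : H981.mu ^ N ≤ H981.mu ^ (2 * n) := pow_le_pow_right₀ H.one (by omega)
    have h4 : Real.exp (K1 * Real.log ((N : ℝ) + 2) ^ 2) ≤ Real.exp (4 * K1 * ℓ ^ 2) := by
      apply Real.exp_le_exp.2
      have h5 : Real.log ((N : ℝ) + 2) ^ 2 ≤ (2 * ℓ) ^ 2 := pow_le_pow_left₀ hl20 hl2 2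
      calc K1 * Real.log ((N : ℝ) + 2) ^ 2 ≤ K1 * (2 * ℓ) ^ 2 :=
            mul_le_mul_of_nonneg_left h5 hK10
        _ = 4 * K1 * ℓ ^ 2 := by ring
    exact mul_le_mul h3 h4 (Real.exp_pos _).le (by positivity)
  have b6 : Real.exp (-Real.log N ^ 4) ≤ Real.exp (-ℓ ^ 4) := by
    apply Real.exp_le_exp.2
    have : ℓ ^ 4 ≤ Real.log N ^ 4 := pow_le_pow_left₀ (by linarith) hl1 4
    linarith
  have b7 := (h2 n (by omega)).1
  have hPP : H981.PP n = ((pg n).ncard : ℝ) / (4 * (n : ℝ)) := by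
    unfold pg
    rw [← Nat.card_coe_set_eq]
    rfl
  have hn0 : (0 : ℝ) < 4 * (n : ℝ) := by positivity
  have b8 : H981.PP n ≤ ((pg n).ncard : ℝ) := by
    rw [hPP, div_le_iff₀ hn0]
    have : (0 : ℝ) ≤ (pg n).ncard := Nat.cast_nonneg _
    nlinarith
  refine ⟨?_, lt_of_lt_of_le (by positivity) (b7.trans b8)⟩
  calc (({f ∈ pg n | ∃ (i j : ℤ) (m : ℕ), 4 * C0 * ℓ ^ 2 ≤ m ∧
      49 / 50 * (m : ℝ) ^ 2 < pbc i j m f}.ncard : ℕ) : ℝ)
      ≤ Real.exp (-Real.log N ^ 4) * (wk S2 N).ncard := b4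
    _ ≤ Real.exp (-ℓ ^ 4) * (H981.mu ^ (2 * n) * Real.exp (4 * K1 * ℓ ^ 2)) :=
        mul_le_mul b6 b5 (Nat.cast_nonneg _) (Real.exp_pos _).le
    _ = Real.exp ((4 * K1 + K2) * ℓ ^ 2 - ℓ ^ 4) *
          (H981.mu ^ (2 * n) * Real.exp (-(K2 * ℓ ^ 2))) := by
        have : Real.exp ((4 * K1 + K2) * ℓ ^ 2 - ℓ ^ 4) =
            Real.exp (-ℓ ^ 4) * Real.exp (4 * K1 * ℓ ^ 2) * Real.exp (K2 * ℓ ^ 2) := by
          rw [← Real.exp_add, ← Real.exp_add]; congr 1; ring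
        rw [this, Real.exp_neg (K2 * ℓ ^ 2)]
        field_simp
    _ ≤ Real.exp ((4 * K1 + K2) * ℓ ^ 2 - ℓ ^ 4) * (pg n).ncard :=
        mul_le_mul_of_nonneg_left (b7.trans b8) (Real.exp_pos _).le

end Pool.Agent.H21.T3
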