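import Pool.Agent.H21.SD.Sum

/-!
Crew T3 (MP_d98d96_pr): the walks on the square and the triangular lattice are locally sparse.

Already proved (Pool/Agent/H21/SD/{Core,Cut,Box,Sum}.lean, honeycomb): `c l v w` = number of times
that `v, w` are consecutive in `l` (either order); lemmas `c_symm`, `mem_of_c`, `c_le_one`, `uniq`;
`outs B l` = the nonempty runs of `l` outside `B`; lemmas `outs_sum`, `outs_length`, `cp_*`; the sum
over sets of walks `lsum`, `main_sum` (model for CNT).
-/

set_option autoImplicit false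

namespace Pool.Agent.H21.T3

open scoped ENNReal
open Classical
open Pool.Agent.H21.SD (c outs Bx)

abbrev V := ℤ × ℤ

/-- Adjacency with the forward steps `S`. -/
def Ad (S : Finset V) (p q : V) : Prop := q - p ∈ S ∨ p - q ∈ S

/-- square lattice -/
def S2 : Finset V := {(1, 0), (0, 1)}

/-- triangular lattice -/
def S3 : Finset V := {(1, 0), (0, 1), (-1, 1)}

def Ok (S : Finset V) : Prop := S = S2 ∨ S = S3

/-- `l` is a self-avoiding walk from `a` to `b`. -/
def Wk (S : Finset V) (a b : V) (l : List V) : Prop :=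
  l.head? = some a ∧ l.getLast? = some b ∧ l.Nodup ∧ l.IsChain (Ad S)

/-- The choice at `v`: the forward step used if it is unique, otherwise a forward step not used (if
there is one), otherwise `(1, 0)`. -/
noncomputable def ch (S : Finset V) (l : List V) (v : V) : V :=
  if h1 : ∑ s ∈ S, c l v (v + s) = 1 ∧ ∃ s ∈ S, c l v (v + s) = 1 then h1.2.choose
  else if h2 : ∃ s ∈ S, c l v (v + s) = 0 then h2.choose else (1, 0)

/-- The edges which enter the box with a forward step: `(u, s)` with `u` outside, `u + s` inside. -/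
noncomputable def Dx (S : Finset V) (i j : ℤ) (n : ℕ) : Finset (V × V) :=
  ((Bx (i - 1) (j - 1) (n + 2) \ Bx i j n) ×ˢ S).filter (fun q => q.1 + q.2 ∈ Bx i j n)

/-- DEG (80 lines). The degree of a vertex in a self-avoiding walk. Proof: induction on the list
(`[a]`: all `c` are `0`, `a = b`). For `p :: q :: l`: the first edge contributes `1` at `p` and `1`
at `q` (exactly one `s ∈ S` with `q = p + s` or `q = p - s`: `Ok S` gives `0 ∉ S` and `s ∈ S → -s ∉ S`),
the head indicator moves from `p` to `q`, and `p ∉ q :: l` (so `c (q :: l) p _ = 0` by `mem_of_c`).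
It helps to prove first, for adjacent `p, q` and every `v`:
`∑ s ∈ S, ((if (p = v ∧ q = v + s) ∨ (p = v + s ∧ q = v) then 1 else 0) + (same with v - s)) =
(if p = v then 1 else 0) + (if q = v then 1 else 0)`. -/
def S_DEG : Prop :=
  ∀ (S : Finset V), Ok S → ∀ (a b : V) (l : List V), Wk S a b l → ∀ v : V,
    ∑ s ∈ S, (c l v (v + s) + c l v (v - s)) + (if a = v then 1 else 0) + (if b = v then 1 else 0) =
      if v ∈ l then 2 else 0

/-- DET (150 lines). The forward edges of the vertices of the box are determined by: which vertices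
of the box are visited, the entering edges `Dx`, and the choices `ch`. Proof: strong induction on
`k = (v.2 - j).toNat * n + (v.1 - i).toNat` (`v` in the box). For `s ∈ S` the vertex `v - s` is either in
the box with a smaller `k` (steps `(1,0)`: `k - 1`, `(0,1)`: `k - n`, `(-1,1)`: `k - n + 1`, there
`n ≥ 2` because both `v` and `v + (1, -1)` are in the box), so `c l (v - s) v = c l' (v - s) v` by
induction, or outside, then `(v - s, s) ∈ Dx S i j n`, same equality by hypothesis. By `c_symm` and
S_DEG for `l` and `l'`, `F := ∑ s ∈ S, c l v (v + s)` is the same for `l` and `l'`, and `F ≤ 2`; each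
`c l v (v + s)` is `0` or `1` (`c_le_one`). `F = 0`: all are zero. `F = 1`: the unique step is
`ch S l v` (an `s ∈ S` with value `1` exists). `F = 2`: if `S = S2` both are `1`; if `S = S3` exactly
one is `0`, and this is `ch S l v`. -/
def S_DET : Prop :=
  ∀ (S : Finset V), Ok S → ∀ (a b : V) (l l' : List V) (i j : ℤ) (n : ℕ),
    Wk S a b l → Wk S a b l' → (∀ v ∈ Bx i j n, (v ∈ l ↔ v ∈ l')) →
    (∀ q ∈ Dx S i j n, c l q.1 (q.1 + q.2) = c l' q.1 (q.1 + q.2)) →
    (∀ v ∈ Bx i j n, ch S l v = ch S l' v) →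
    ∀ v ∈ Bx i j n, ∀ s ∈ S, c l v (v + s) = c l' v (v + s)

/-- INJ (80 lines, uses S_DET). Proof: by `uniq` of `SD/Core.lean` (see its statement) it is enough
that `c l v w = c l' v w` for all `v, w`. If `v, w ∉ Bx`: `outs_sum` (SD/Cut.lean) and the equality of
`outs`. Otherwise both sides are `0` unless `w - v ∈ S` or `v - w ∈ S` (a consecutive pair of a chain
is adjacent, induction as `nbr_of_c` in SD/Core.lean); by `c_symm` suppose `w = v + s`, `s ∈ S`; if
`v ∈ Bx` use S_DET; if `v ∉ Bx`, `w ∈ Bx` then `(v, s) ∈ Dx S i j n` (`v` is in the box enlarged by `1`). -/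
def S_INJ : Prop :=
  ∀ (S : Finset V), Ok S → ∀ (a b : V) (l l' : List V) (i j : ℤ) (n : ℕ),
    Wk S a b l → Wk S a b l' → (∀ v ∈ Bx i j n, (v ∈ l ↔ v ∈ l')) →
    (∀ q ∈ Dx S i j n, c l q.1 (q.1 + q.2) = c l' q.1 (q.1 + q.2)) →
    (∀ v ∈ Bx i j n, ch S l v = ch S l' v) → outs (Bx i j n) l = outs (Bx i j n) l' → l = l'

/-- ENT (60 lines). Small subsets. Proof: `#{E} ≤ ∑_{E ⊆ B} (1/50)^(|E| - |B|/50)
= 50^(|B|/50) (1 + 1/50)^|B|` (`Finset.sum_pow_mul_eq_add_pow` or `Finset.prod_one_add`/`prod_add`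
for `∑_{E ⊆ B} (1/50)^|E| = (51/50)^|B|`), and `log 50 / 50 + log (51/50) ≤ 1/10`, that is
`50 * (51/50)^50 ≤ exp 5` (`50 ≤ e^3.92`; e.g. `(51/50)^50 ≤ 2.7`, `135 ≤ 2.7182818283^5` by
norm_num and `Real.exp_one_gt_d9`). -/
def S_ENT : Prop :=
  ∀ (B : Finset V), ((B.powerset.filter (fun E => 50 * E.card ≤ B.card)).card : ℝ) ≤
    Real.exp ((B.card : ℝ) / 10)

/-- LSU (100 lines, uses S_INJ). The sum over the walks (adapt `main_sum` of SD/Sum.lean; `code` is
now the triple `(Bx.filter (· ∉ l), Dx.filter (fun q => c l q.1 (q.1 + q.2) = 1), χ)` with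
`χ : {v // v ∈ Bx i j n} → {s // s ∈ S}` (or `Finset.pi`) given by `ch S l` (`ch S l v ∈ S` because
`(1, 0) ∈ S`); `c ≤ 1` by `c_le_one`, so the set of the `q` with value `1` determines the values).
`M` is a bound for the number of the possible first components, `(Dx S i j n).card ≤ S.card *
(4 * n + 4) ≤ 12 * n + 12`. The number of the runs is at most `N.card` by hypothesis `hcount`. -/
def S_LSU : Prop :=
  ∀ (S : Finset V), Ok S → ∀ (x : ℝ≥0∞), x ≤ 1 → ∀ (i j : ℤ) (n : ℕ) (a b : V)
    (T : Finset (List V)) (m : ℕ) (F : Finset (Finset V)) (N : Finset V) (P : Finset (List V)),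
    (∀ l ∈ T, Wk S a b l) → (∀ l ∈ T, m ≤ (l.filter (fun v => v ∈ Bx i j n)).length) →
    (∀ l ∈ T, (Bx i j n).filter (fun v => v ∉ l) ∈ F) →
    (∀ l ∈ T, (outs (Bx i j n) l).length ≤ N.card) →
    (∀ l ∈ T, ∀ r ∈ outs (Bx i j n) l, r ∈ P) →
    ∑ l ∈ T, x ^ l.length ≤ x ^ m * (F.card * 2 ^ (12 * n + 12) * S.card ^ (n ^ 2) *
      ∑ k ∈ Finset.range (N.card + 1), (∑ r ∈ P, x ^ r.length) ^ k)

/-- MUS (150 lines). The number of the self-avoiding walks on the square lattice is at least
`(12/5)^n`. Proof: the words of length `n` over `{E, W, N}` without `EW` and `WE` give self-avoiding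
walks from the origin (the second coordinate is nondecreasing; on a level the first coordinate is
strictly monotone); their number `w n` satisfies `w 0 = 1`, `w 1 = 3`, `w (n+2) = 2 w (n+1) + w n`
(after `N` three continuations, otherwise two; the number of words of length `n+1` which end with `N`
is `w n`), and `2 * (12/5) + 1 ≥ (12/5)^2`. (The library file
Pool/Graph/R_seed8/H976R3/HPL/B5.lean does the same for the triangular lattice.) -/
def S_MUS : Prop :=
  ∀ n : ℕ, (12 / 5 : ℝ) ^ n ≤ ({f : Fin (n + 1) → ℤ × ℤ | f 0 = 0 ∧ Function.Injective f ∧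
    ∀ i : Fin n, |(f i.castSucc).1 - (f i.succ).1| + |(f i.castSucc).2 - (f i.succ).2| = 1}.ncard : ℝ)

end Pool.Agent.H21.T3
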