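import Pool.Agent.H21.T3.Fin3

/-!
Uniform walks on the square and the triangular lattice.
-/

set_option autoImplicit false

namespace Pool.Agent.H21.T3

open scoped ENNReal
open Classical
open Pool.Agent.H21.SD (c outs cp Bx mem_Bx cnt cnt_eq bc bc_eq DD card_DD numbers)

def Tr (S : Finset V) (D : Set V) (a b : V) : Set (List V) :=
  {l | Wk S a b l ∧ ∀ p ∈ l, p ∈ D}

/-- the one box bound -/
def OneBox (S : Finset V) (μ K1 : ℝ) : Prop := ∀ (D : Finset V) (a b : V) (i j : ℤ) (n : ℕ),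
    ∑' l : {l : List V | l ∈ Tr S D a b ∧ 49 / 50 * (n : ℝ) ^ 2 < cnt i j n l},
      xm μ ^ (l.1.length - 1) ≤
      ENNReal.ofReal (Real.exp (K1 * ((n + 1) * Real.log (D.card + 2) ^ 2) - n ^ 2 / 50))

theorem tsum3 (hENT : S_ENT) (hLSU : S_LSU) {S : Finset V} {μ K : ℝ} (H : Fc S μ K) :
    OneBox S μ (5 * K + 3 * Real.log μ + 100) := by
  intro D a b i j n
  rw [ENNReal.tsum_eq_iSup_sum]
  refine iSup_le fun s => ?_
  have h := fin3 hENT hLSU H D a b i j n (s.map (Function.Embedding.subtype _)) (by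
    intro l hl
    rw [Finset.mem_map] at hl
    obtain ⟨⟨l', h1, h2⟩, -, rfl⟩ := hl
    simp only [Function.Embedding.subtype_apply]
    refine ⟨h1.1, h1.2, ?_⟩
    rw [← cnt_eq h1.1.2.2.1]
    have : 49 * (n : ℝ) ^ 2 < 50 * cnt i j n l' := by linarith
    exact_mod_cast this)
  rw [Finset.sum_map] at h
  exact h

theorem union3 {S : Finset V} {μ K : ℝ} (hK0 : 0 ≤ K) (hK : OneBox S μ K) :
    ∀ (D : Finset V) (a b : V) (s ℓ C1 : ℝ), 1 ≤ ℓ → 0 ≤ C1 →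
    50 * (32 * K + C1 + 30) ≤ s → (D.card : ℝ) + 2 ≤ Real.exp (4 * ℓ) →
    ∑' l : {l : List V | l ∈ Tr S D a b ∧ ∃ (i j : ℤ) (n : ℕ), s * ℓ ^ 2 ≤ n ∧
      49 / 50 * (n : ℝ) ^ 2 < cnt i j n l}, xm μ ^ (l.1.length - 1) ≤
      ENNReal.ofReal (Real.exp (-(C1 * ℓ) - ℓ ^ 4)) := by
  intro D a b s ℓ C1 hℓ hC1 hs hD
  set d := D.card with hd
  let Q : Finset (ℤ × ℤ × ℕ) :=
    ((D ×ˢ (Finset.range (2 * d + 1) ×ˢ (Finset.range (2 * d + 1) ×ˢ Finset.range (2 * d + 1)))).image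
      (fun t => (t.1.1 - (t.2.1 : ℤ), t.1.2 - (t.2.2.1 : ℤ), t.2.2.2))).filter
      (fun t => s * ℓ ^ 2 ≤ (t.2.2 : ℝ))
  have hQc : (Q.card : ℝ) ≤ Real.exp (28 * ℓ) := by
    have h1 : Q.card ≤ d * ((2 * d + 1) * ((2 * d + 1) * (2 * d + 1))) := by
      refine (Finset.card_filter_le _ _).trans (Finset.card_image_le.trans ?_)
      simp only [Finset.card_product, Finset.card_range]
      exact le_rfl
    have h2 : (Q.card : ℝ) ≤ d * ((2 * d + 1) * ((2 * d + 1) * (2 * d + 1))) := by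
      exact_mod_cast h1
    have hd0 : (0 : ℝ) ≤ d := Nat.cast_nonneg d
    have h3 : (d : ℝ) * ((2 * d + 1) * ((2 * d + 1) * (2 * d + 1))) ≤ ((d : ℝ) + 2) ^ 7 := by
      have g1 : (2 * d + 1 : ℝ) ≤ (d + 2) ^ 2 := by nlinarith
      have g2 : (d : ℝ) ≤ d + 2 := by linarith
      calc (d : ℝ) * ((2 * d + 1) * ((2 * d + 1) * (2 * d + 1)))
          ≤ (d + 2) * ((d + 2) ^ 2 * ((d + 2) ^ 2 * (d + 2) ^ 2)) := by gcongr
        _ = ((d : ℝ) + 2) ^ 7 := by ring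
    calc (Q.card : ℝ) ≤ ((d : ℝ) + 2) ^ 7 := h2.trans h3
      _ ≤ Real.exp (4 * ℓ) ^ 7 := pow_le_pow_left₀ (by positivity) hD 7
      _ = Real.exp (28 * ℓ) := by
        rw [← Real.exp_nat_mul]; congr 1; push_cast; ring
  have hsub : {l : List V | l ∈ Tr S D a b ∧ ∃ (i j : ℤ) (n : ℕ), s * ℓ ^ 2 ≤ n ∧
      49 / 50 * (n : ℝ) ^ 2 < cnt i j n l} ⊆
      ⋃ t ∈ Q, {l : List V | l ∈ Tr S D a b ∧ 49 / 50 * (t.2.2 : ℝ) ^ 2 < cnt t.1 t.2.1 t.2.2 l} := by
    rintro l ⟨hl, i, j, n, h1, h2⟩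
    rw [Set.mem_iUnion₂]
    refine ⟨(i, j, n), ?_, hl, h2⟩
    have hnod := hl.1.2.2.1
    have hcn : 0 < cnt i j n l := by
      have : (0 : ℝ) < cnt i j n l := lt_of_le_of_lt (by positivity) h2
      exact_mod_cast this
    rw [cnt_eq hnod] at hcn h2
    obtain ⟨v, hv⟩ := List.exists_mem_of_length_pos hcn
    rw [List.mem_filter, decide_eq_true_eq, mem_Bx] at hv
    have hvD : v ∈ D := by exact_mod_cast hl.2 v hv.1
    have hlen : l.length ≤ d := by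
      rw [← List.toFinset_card_of_nodup hnod]
      apply Finset.card_le_card
      intro p hp
      exact_mod_cast hl.2 p (List.mem_toFinset.1 hp)
    have hnd : n ≤ 2 * d := by
      have h8 : (l.filter (fun v => v ∈ Bx i j n)).length ≤ l.length := List.length_filter_le _ _
      have h9 : 49 * (n : ℝ) ^ 2 < 50 * d := by
        have : ((l.filter (fun v => v ∈ Bx i j n)).length : ℝ) ≤ d := by
          exact_mod_cast h8.trans hlen
        linarith
      have h10 : 49 * n ^ 2 < 50 * d := by exact_mod_cast h9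
      by_contra hcon
      push Not at hcon
      nlinarith
    rw [Finset.mem_filter, Finset.mem_image]
    refine ⟨⟨(v, ((v.1 - i).toNat, ((v.2 - j).toNat, n))), ?_, ?_⟩, h1⟩
    · simp only [Finset.mem_product, Finset.mem_range]
      refine ⟨hvD, ?_, ?_, ?_⟩ <;> omega
    · simp only [Prod.mk.injEq, and_true]
      constructor <;> omega
  refine (ENNReal.tsum_mono_subtype (fun l : List V => xm μ ^ (l.length - 1)) hsub).trans ?_
  refine (ENNReal.tsum_biUnion_le (fun l : List V => xm μ ^ (l.length - 1)) Q _).trans ?_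
  have hlog : Real.log (d + 2) ≤ 4 * ℓ := by
    rw [Real.log_le_iff_le_exp (by positivity)]
    exact hD
  have hlog0 : 0 ≤ Real.log ((d : ℝ) + 2) := Real.log_nonneg (by
    have : (0 : ℝ) ≤ d := Nat.cast_nonneg d
    linarith)
  have hlog2 : Real.log ((d : ℝ) + 2) ^ 2 ≤ 16 * ℓ ^ 2 := by
    calc Real.log ((d : ℝ) + 2) ^ 2 ≤ (4 * ℓ) ^ 2 := pow_le_pow_left₀ hlog0 hlog 2
      _ = 16 * ℓ ^ 2 := by ring
  have hbd : ∀ t ∈ Q, ∑' l : {l : List V | l ∈ Tr S D a b ∧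
      49 / 50 * (t.2.2 : ℝ) ^ 2 < cnt t.1 t.2.1 t.2.2 l}, xm μ ^ (l.1.length - 1) ≤
      ENNReal.ofReal (Real.exp (-(C1 * ℓ) - ℓ ^ 4 - 28 * ℓ)) := by
    rintro ⟨i, j, n⟩ ht
    have hn : s * ℓ ^ 2 ≤ (n : ℝ) := (Finset.mem_filter.1 ht).2
    refine (hK D a b i j n).trans ?_
    apply ENNReal.ofReal_le_ofReal
    apply Real.exp_le_exp.2
    have hℓ2 : 1 ≤ ℓ ^ 2 := one_le_pow₀ hℓ
    have hs0 : 1500 ≤ s := by nlinarith
    have hn1 : (1 : ℝ) ≤ n := by nlinarith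
    have h1 : K * (((n : ℝ) + 1) * Real.log (d + 2) ^ 2) ≤ 32 * K * (n * ℓ ^ 2) := by
      have h2 : ((n : ℝ) + 1) * Real.log (d + 2) ^ 2 ≤ (2 * n) * (16 * ℓ ^ 2) :=
        mul_le_mul (by linarith) hlog2 (by positivity) (by positivity)
      calc K * (((n : ℝ) + 1) * Real.log (d + 2) ^ 2) ≤ K * ((2 * n) * (16 * ℓ ^ 2)) :=
            mul_le_mul_of_nonneg_left h2 hK0
        _ = 32 * K * (n * ℓ ^ 2) := by ring
    have h3 : (32 * K + C1 + 30) * (n * ℓ ^ 2) ≤ (n : ℝ) ^ 2 / 50 := by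
      have h4 : (50 * (32 * K + C1 + 30)) * ℓ ^ 2 ≤ n :=
        (mul_le_mul_of_nonneg_right hs (by positivity)).trans hn
      have h5 := mul_le_mul_of_nonneg_left h4 (by linarith : (0 : ℝ) ≤ n)
      nlinarith
    have h6 : ℓ ≤ n * ℓ ^ 2 := by
      have : ℓ ≤ ℓ ^ 2 := by nlinarith
      nlinarith
    have h7 : ℓ ^ 4 ≤ n * ℓ ^ 2 := by
      have h8 : ℓ ^ 2 ≤ n := by nlinarith
      calc ℓ ^ 4 = ℓ ^ 2 * ℓ ^ 2 := by ring
        _ ≤ n * ℓ ^ 2 := mul_le_mul_of_nonneg_right h8 (by positivity)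
    have h9 : C1 * ℓ ≤ C1 * (n * ℓ ^ 2) := mul_le_mul_of_nonneg_left h6 hC1
    have h10 : 0 ≤ (n : ℝ) * ℓ ^ 2 := by positivity
    nlinarith
  refine (Finset.sum_le_sum hbd).trans ?_
  rw [Finset.sum_const, nsmul_eq_mul, ← ENNReal.ofReal_natCast, ← ENNReal.ofReal_mul (by positivity)]
  apply ENNReal.ofReal_le_ofReal
  calc (Q.card : ℝ) * Real.exp (-(C1 * ℓ) - ℓ ^ 4 - 28 * ℓ)
      ≤ Real.exp (28 * ℓ) * Real.exp (-(C1 * ℓ) - ℓ ^ 4 - 28 * ℓ) :=
        mul_le_mul_of_nonneg_right hQc (Real.exp_pos _).le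
    _ = Real.exp (-(C1 * ℓ) - ℓ ^ 4) := by
        rw [← Real.exp_add]; congr 1; ring

theorem step_le {S : Finset V} (hS : Ok S) {p q : V} (h : Ad S p q) :
    |q.1 - p.1| ≤ 1 ∧ |q.2 - p.2| ≤ 1 := by
  rw [abs_le, abs_le]
  unfold Ad at h
  rcases hS with rfl | rfl
  · unfold S2 at h
    simp only [Finset.mem_insert, Finset.mem_singleton, Prod.ext_iff, Prod.fst_sub,
      Prod.snd_sub] at h
    omega
  · unfold S3 at h
    simp only [Finset.mem_insert, Finset.mem_singleton, Prod.ext_iff, Prod.fst_sub,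
      Prod.snd_sub] at h
    omega

theorem chain_loc3 {S : Finset V} (hS : Ok S) : ∀ (l : List V) (u : V), l.head? = some u →
    l.IsChain (Ad S) → ∀ p ∈ l,
    |p.1 - u.1| ≤ (l.length : ℤ) - 1 ∧ |p.2 - u.2| ≤ (l.length : ℤ) - 1
  | [], u, h, _, p, hp => by simp at hp
  | [x], u, h, _, p, hp => by
    simp only [List.head?_cons, Option.some.injEq] at h
    rw [List.mem_singleton] at hp
    subst h; subst hp
    simp
  | x :: y :: xs, u, h, hc, p, hp => by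
    simp only [List.head?_cons, Option.some.injEq] at h
    subst h
    rw [List.isChain_cons_cons] at hc
    obtain ⟨h1, h2⟩ := hc
    have hlen : ((x :: y :: xs).length : ℤ) = (xs.length : ℤ) + 2 := by
      simp only [List.length_cons]; push_cast; ring
    rcases List.mem_cons.1 hp with rfl | hp'
    · rw [hlen]
      simp only [sub_self, abs_zero]
      constructor <;> omega
    · have ih := chain_loc3 hS (y :: xs) y rfl h2 p hp'
      have hlen' : ((y :: xs).length : ℤ) = (xs.length : ℤ) + 1 := by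
        simp only [List.length_cons]; push_cast; ring
      rw [hlen'] at ih
      rw [hlen]
      have hy := step_le hS h1
      rw [abs_le, abs_le] at ih hy ⊢
      omega

/-- the lists -/
def IsL (S : Finset V) (n : ℕ) (l : List V) : Prop :=
  l.length = n + 1 ∧ l.head? = some (0, 0) ∧ l.IsChain (Ad S) ∧ l.Nodup

theorem isL_traj {S : Finset V} (hS : Ok S) {n : ℕ} {l : List V} (hl : IsL S n l) :
    ∃ b ∈ DD n, l.getLast? = some b ∧ l ∈ Tr S (DD n : Set V) (0, 0) b := by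
  obtain ⟨h1, h2, h3, h4⟩ := hl
  have hne : l ≠ [] := by
    intro h; rw [h] at h1; simp at h1
  have hmem : ∀ p ∈ l, p ∈ DD n := by
    intro p hp
    have h5 := chain_loc3 hS l (0, 0) h2 h3 p hp
    rw [h1] at h5
    push_cast at h5
    simp only [sub_zero, abs_le] at h5
    unfold DD
    rw [Finset.mem_product, Finset.mem_Icc, Finset.mem_Icc]
    omega
  refine ⟨l.getLast hne, hmem _ (List.getLast_mem hne), List.getLast?_eq_some_getLast hne,
    ⟨h2, List.getLast?_eq_some_getLast hne, h4, h3⟩, ?_⟩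
  intro p hp
  exact_mod_cast hmem p hp

theorem lists3 {S : Finset V} (hS : Ok S) {μ : ℝ} (hmu : 0 < μ) (n : ℕ) (E : List V → Prop) (B : ℝ)
    (hB : 0 ≤ B)
    (hE : ∀ b, ∑' l : {l : List V | l ∈ Tr S (DD n : Set V) (0, 0) b ∧ E l},
      xm μ ^ (l.1.length - 1) ≤ ENNReal.ofReal B)
    (F : Finset (List V)) (hF : ∀ l ∈ F, IsL S n l ∧ E l) :
    (F.card : ℝ) ≤ μ ^ n * ((2 * n + 1) ^ 2 * B) := by
  have h1 : ∑ l ∈ F, xm μ ^ (l.length - 1) = ENNReal.ofReal (F.card * (1 / μ) ^ n) := by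
    rw [ENNReal.ofReal_mul (by positivity), ENNReal.ofReal_natCast, ← xm_pow hmu, ← nsmul_eq_mul,
      ← Finset.sum_const]
    refine Finset.sum_congr rfl fun l hl => ?_
    rw [(hF l hl).1.1, Nat.add_sub_cancel]
  have hmaps : ∀ l ∈ F, (l.getLast?).getD (0, 0) ∈ DD n := by
    intro l hl
    obtain ⟨b, hb, h2, -⟩ := isL_traj hS (hF l hl).1
    rw [h2]
    exact hb
  have h2 : ∑ l ∈ F, xm μ ^ (l.length - 1) ≤ ENNReal.ofReal ((2 * n + 1) ^ 2 * B) := by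
    rw [← Finset.sum_fiberwise_of_maps_to hmaps]
    have h3 : ∀ b ∈ DD n, ∑ l ∈ F with (l.getLast?).getD (0, 0) = b, xm μ ^ (l.length - 1) ≤
        ENNReal.ofReal B := by
      intro b _
      refine le_trans ?_ (hE b)
      rw [← Finset.tsum_subtype' (F.filter (fun l => (l.getLast?).getD (0, 0) = b))
        (fun l : List V => xm μ ^ (l.length - 1))]
      refine ENNReal.tsum_mono_subtype (fun l : List V => xm μ ^ (l.length - 1)) ?_
      intro l hl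
      rw [Finset.mem_coe, Finset.mem_filter] at hl
      obtain ⟨b', -, h4, h5⟩ := isL_traj hS (hF l hl.1).1
      have h6 := hl.2
      rw [h4] at h6
      simp only [Option.getD_some] at h6
      rw [h6] at h5
      exact ⟨h5, (hF l hl.1).2⟩
    refine (Finset.sum_le_sum h3).trans ?_
    rw [Finset.sum_const, nsmul_eq_mul, card_DD, ← ENNReal.ofReal_natCast,
      ← ENNReal.ofReal_mul (by positivity)]
    push_cast
    exact le_rfl
  rw [h1, ENNReal.ofReal_le_ofReal_iff (by positivity)] at h2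
  have h3 : (F.card : ℝ) = μ ^ n * (F.card * (1 / μ) ^ n) := by
    rw [one_div, inv_pow]
    field_simp
  rw [h3]
  exact mul_le_mul_of_nonneg_left h2 (by positivity)

theorem isL_ofFn {S : Finset V} {n : ℕ} {f : Fin (n + 1) → V} (hf : f ∈ wk S n) :
    IsL S n (List.ofFn f) := by
  obtain ⟨h1, h2, h3⟩ := hf
  refine ⟨by simp, ?_, ?_, List.nodup_ofFn.2 h2⟩
  · rw [List.ofFn_succ, List.head?_cons, h1]
    rfl
  · rw [List.isChain_iff_getElem]
    intro i hi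
    have hi' : i < n := by simpa using hi
    have := h3 ⟨i, hi'⟩
    rw [List.getElem_ofFn, List.getElem_ofFn]
    exact this

theorem fns3 {S : Finset V} (hS : Ok S) (n : ℕ) (A : (Fin (n + 1) → V) → Prop)
    (B : List V → Prop) (Y : ℝ) (hAB : ∀ f, A f → B (List.ofFn f))
    (h : ∀ F : Finset (List V), (∀ l ∈ F, IsL S n l ∧ B l) → (F.card : ℝ) ≤ Y) :
    ({f ∈ wk S n | A f}.ncard : ℝ) ≤ Y := by
  have hfinA : {f ∈ wk S n | A f}.Finite := (wk_finite hS n).subset fun f hf => hf.1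
  have h1 := h (hfinA.toFinset.image List.ofFn) (by
    intro l hl
    obtain ⟨f, hf, rfl⟩ := Finset.mem_image.mp hl
    rw [Set.Finite.mem_toFinset] at hf
    exact ⟨isL_ofFn hf.1, hAB f hf.2⟩)
  rw [Finset.card_image_of_injective _ List.ofFn_injective] at h1
  rwa [Set.ncard_eq_toFinset_card _ hfinA]

theorem box3 (hENT : S_ENT) (hLSU : S_LSU) {S : Finset V} {μ K : ℝ} (H : Fc S μ K) :
    ∃ C : ℝ, 0 ≤ C ∧ ∀ n : ℕ, 3 ≤ n → ∀ (i j : ℤ) (m : ℕ),
    ({f ∈ wk S n | 49 / 50 * (m : ℝ) ^ 2 < bc i j m f}.ncard : ℝ) ≤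
      Real.exp (C * ((m + 1) * Real.log n ^ 2) - m ^ 2 / 50) * (wk S n).ncard := by
  have hK := tsum3 hENT hLSU H
  have hmu : 0 < μ := lt_of_lt_of_le one_pos H.one
  have hKK : 0 ≤ 5 * K + 3 * Real.log μ + 100 := by
    have := H.K0
    have := Real.log_nonneg H.one
    linarith
  set K1 : ℝ := 5 * K + 3 * Real.log μ + 100 with hK1
  refine ⟨16 * K1 + 4, by positivity, fun n hn i j m => ?_⟩
  obtain ⟨hℓ, hD, hn2⟩ := numbers n hn
  set ℓ := Real.log n with hℓd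
  have hlog : Real.log (((DD n).card : ℝ) + 2) ≤ 4 * ℓ := by
    rw [Real.log_le_iff_le_exp (by positivity)]
    exact hD
  have hlog0 : 0 ≤ Real.log (((DD n).card : ℝ) + 2) := Real.log_nonneg (by
    have : (0 : ℝ) ≤ (DD n).card := Nat.cast_nonneg _
    linarith)
  have hlog2 : Real.log (((DD n).card : ℝ) + 2) ^ 2 ≤ 16 * ℓ ^ 2 := by
    calc Real.log (((DD n).card : ℝ) + 2) ^ 2 ≤ (4 * ℓ) ^ 2 := pow_le_pow_left₀ hlog0 hlog 2
      _ = 16 * ℓ ^ 2 := by ring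
  have h1 := fns3 H.ok n
    (fun f => 49 / 50 * (m : ℝ) ^ 2 < bc i j m f)
    (fun l => 49 / 50 * (m : ℝ) ^ 2 < cnt i j m l)
    (μ ^ n * ((2 * n + 1) ^ 2 *
      Real.exp (K1 * ((m + 1) * Real.log ((DD n).card + 2) ^ 2) - m ^ 2 / 50)))
    (fun f hf => by rw [← bc_eq]; exact hf)
    (lists3 H.ok hmu n _ _ (Real.exp_pos _).le (fun b => hK (DD n) (0, 0) b i j m))
  have h2 := H.low n
  refine h1.trans ?_
  have h3 : (2 * (n : ℝ) + 1) ^ 2 *
      Real.exp (K1 * ((m + 1) * Real.log ((DD n).card + 2) ^ 2) - m ^ 2 / 50) ≤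
      Real.exp ((16 * K1 + 4) * ((m + 1) * ℓ ^ 2) - m ^ 2 / 50) := by
    calc _ ≤ Real.exp (4 * ℓ) *
        Real.exp (K1 * ((m + 1) * Real.log ((DD n).card + 2) ^ 2) - m ^ 2 / 50) :=
          mul_le_mul_of_nonneg_right hn2 (Real.exp_pos _).le
      _ ≤ _ := by
        rw [← Real.exp_add]
        apply Real.exp_le_exp.2
        have hm0 : (0 : ℝ) ≤ m := Nat.cast_nonneg m
        have h4 : K1 * ((m + 1) * Real.log ((DD n).card + 2) ^ 2) ≤
            K1 * ((m + 1) * (16 * ℓ ^ 2)) :=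
          mul_le_mul_of_nonneg_left (mul_le_mul_of_nonneg_left hlog2 (by positivity)) hKK
        have h5 : ℓ ≤ (m + 1) * ℓ ^ 2 := by
          have h6 : ℓ ≤ ℓ ^ 2 := by nlinarith
          have h7 : 0 ≤ (m : ℝ) * ℓ ^ 2 := by positivity
          nlinarith
        nlinarith
  calc μ ^ n * ((2 * (n : ℝ) + 1) ^ 2 *
      Real.exp (K1 * ((m + 1) * Real.log ((DD n).card + 2) ^ 2) - m ^ 2 / 50))
      ≤ (wk S n).ncard *
        Real.exp ((16 * K1 + 4) * ((m + 1) * ℓ ^ 2) - m ^ 2 / 50) :=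
        mul_le_mul h2 h3 (by positivity) (Nat.cast_nonneg _)
    _ = _ := mul_comm _ _

theorem all3 (hENT : S_ENT) (hLSU : S_LSU) {S : Finset V} {μ K : ℝ} (H : Fc S μ K) :
    ∃ C : ℝ, 1 ≤ C ∧ ∀ C' : ℝ, C ≤ C' → ∀ n : ℕ, 3 ≤ n →
    ({f ∈ wk S n | ∃ (i j : ℤ) (m : ℕ), C' * Real.log n ^ 2 ≤ m ∧
      49 / 50 * (m : ℝ) ^ 2 < bc i j m f}.ncard : ℝ) ≤
      Real.exp (-Real.log n ^ 4) * (wk S n).ncard := by
  have hmu : 0 < μ := lt_of_lt_of_le one_pos H.one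
  have hKK : 0 ≤ 5 * K + 3 * Real.log μ + 100 := by
    have := H.K0
    have := Real.log_nonneg H.one
    linarith
  have hK := union3 hKK (tsum3 hENT hLSU H)
  set K1 : ℝ := 5 * K + 3 * Real.log μ + 100 with hK1
  refine ⟨50 * (32 * K1 + 4 + 30), by nlinarith, fun C' hC' n hn => ?_⟩
  obtain ⟨hℓ, hD, hn2⟩ := numbers n hn
  set ℓ := Real.log n with hℓd
  have h1 := fns3 H.ok n
    (fun f => ∃ (i j : ℤ) (m : ℕ), C' * ℓ ^ 2 ≤ m ∧ 49 / 50 * (m : ℝ) ^ 2 < bc i j m f)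
    (fun l => ∃ (i j : ℤ) (m : ℕ), C' * ℓ ^ 2 ≤ m ∧ 49 / 50 * (m : ℝ) ^ 2 < cnt i j m l)
    (μ ^ n * ((2 * n + 1) ^ 2 * Real.exp (-(4 * ℓ) - ℓ ^ 4)))
    (fun f hf => by
      obtain ⟨i, j, m, g1, g2⟩ := hf
      refine ⟨i, j, m, g1, ?_⟩
      rw [← bc_eq]; exact g2)
    (lists3 H.ok hmu n _ _ (Real.exp_pos _).le
      (fun b => hK (DD n) (0, 0) b C' ℓ 4 hℓ (by norm_num) hC' hD))
  have h2 := H.low n
  refine h1.trans ?_
  have h3 : (2 * (n : ℝ) + 1) ^ 2 * Real.exp (-(4 * ℓ) - ℓ ^ 4) ≤ Real.exp (-ℓ ^ 4) := by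
    calc _ ≤ Real.exp (4 * ℓ) * Real.exp (-(4 * ℓ) - ℓ ^ 4) :=
          mul_le_mul_of_nonneg_right hn2 (Real.exp_pos _).le
      _ = _ := by
        rw [← Real.exp_add]
        congr 1
        ring
  calc μ ^ n * ((2 * (n : ℝ) + 1) ^ 2 * Real.exp (-(4 * ℓ) - ℓ ^ 4))
      ≤ (wk S n).ncard * Real.exp (-ℓ ^ 4) :=
        mul_le_mul h2 h3 (by positivity) (Nat.cast_nonneg _)
    _ = _ := mul_comm _ _

end Pool.Agent.H21.T3
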